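import Pool.Agent.W2helper83.LF.Law
import Pool.Agent.W2helper83.GZ.Fin

/-! The final statement, in elementary terms. -/

open Filter Topology MeasureTheory
open Pool.Agent.H383
open Pool.Agent.H383.AP
open Pool.Agent.H383.Gauss Pool.Agent.H383.Circ
open Pool.Agent.H425R3.JL
open Pool.Agent.H469R2.NK
open Pool.Agent.W24.CP
open Pool.Agent.W2helper83.GZ
open Finset

namespace Pool.Agent.W2helper83.LF

variable {k m : ℕ}

lemma En_eq1 (v : ℤ × ℤ) : En √(nm v : ℝ) = Ec ((v.1 : ℝ) ^ 2 + (v.2 : ℝ) ^ 2) := by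
  rw [nm_cast, Ec_eq (by positivity)]

/-- averages over the products of discs from averages along the index sets -/
lemma to_discs {F : (Fin k → ℤ × ℤ) → ℝ} {L : ℝ} (h : Tendsto (fun j => fav (SK k j) (fun n => F (tz k n))) atTop (𝓝 L)) :
    Tendsto (fun N : ℕ => (∑ z ∈ discs k N, F z) / (((disc N).card : ℝ)) ^ k) atTop (𝓝 L) := by
  rw [← tendsto_add_atTop_iff_nat 1]
  refine h.congr (fun j => ?_)
  rw [fav_SK F j, card_discs]
  push_cast
  rfl

end Pool.Agent.W2helper83.LF
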