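import Pool.Agent.W2helper83.LF.Osc

/-! The mean-square approximation of the error term at the values of a linear form. -/

open Filter Topology MeasureTheory
open Pool.Agent.H383
open Pool.Agent.H383.AP
open Pool.Agent.H383.Gauss Pool.Agent.H383.Circ
open Pool.Agent.H425R3.JL
open Pool.Agent.H469R2.NK
open Pool.Agent.W2helper83.GZ
open Finset

namespace Pool.Agent.W2helper83.LF

variable {k m : ℕ}

lemma sum_sq_le (c x : Fin k → ℤ) (b : ℤ) : (∑ i, c i * x i + b) ^ 2 ≤ (k + 1) * (∑ i, c i ^ 2 * x i ^ 2 + b ^ 2) := by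
  have h1 : (∑ i, c i * x i) ^ 2 ≤ k * ∑ i, (c i * x i) ^ 2 := by
    have := sq_sum_le_card_mul_sum_sq (s := (univ : Finset (Fin k))) (f := fun i => c i * x i)
    simpa using this
  have h2 : ∑ i, (c i * x i) ^ 2 = ∑ i, c i ^ 2 * x i ^ 2 := sum_congr rfl (fun i _ => by ring)
  rw [h2] at h1
  set A := ∑ i, c i * x i
  set Q := ∑ i, c i ^ 2 * x i ^ 2 with hQ
  have hQ0 : 0 ≤ Q := sum_nonneg (fun i _ => by positivity)
  rcases Nat.eq_zero_or_pos k with hk | hk
  · subst hk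
    have : A = 0 := by simp [A]
    rw [this]
    have : Q = 0 := by simp [hQ]
    rw [this]
    simp
  · have hk1 : (1:ℤ) ≤ k := by exact_mod_cast hk
    -- (A + b)^2 ≤ (1 + 1/k) A^2 + (1 + k) b^2
    have h3 : (k:ℤ) * (A + b) ^ 2 ≤ (k + 1) * A ^ 2 + k * (k + 1) * b ^ 2 := by nlinarith [sq_nonneg (A - k * b)]
    have h4 : (k:ℤ) * (A + b) ^ 2 ≤ k * ((k + 1) * (Q + b ^ 2)) := by
      have h5 : ((k:ℤ) + 1) * A ^ 2 ≤ (k + 1) * (k * Q) := mul_le_mul_of_nonneg_left h1 (by positivity)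
      nlinarith
    exact le_of_mul_le_mul_left h4 (by linarith)

/-- the size of the values of a linear form -/
lemma lin_size (c : Fin k → ℤ) (a : ℤ × ℤ) : ∃ K : ℕ, 1 ≤ K ∧ ∀ N : ℕ, 1 ≤ N → ∀ z ∈ discs k N,
    nm (lin c a z) ≤ K * N ∧ ∀ i, z i ∈ disc (K * N) := by
  refine ⟨(k + 1) * ((∑ i, (c i) ^ 2).toNat + nm a + 1), ?_, ?_⟩
  · exact Nat.one_le_iff_ne_zero.mpr (by positivity)
  intro N hN z hz
  rw [mem_discs] at hz
  have hz1 : ∀ i, (z i).1 ^ 2 + (z i).2 ^ 2 ≤ (N:ℤ) := by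
    intro i
    rw [← nm_castZ]
    exact_mod_cast (mem_disc.mp (hz i)).2
  have hN1 : (1:ℤ) ≤ N := by exact_mod_cast hN
  constructor
  · have h1 : ((nm (lin c a z) : ℕ) : ℤ) ≤ (((k + 1) * ((∑ i, (c i) ^ 2).toNat + nm a + 1) * N : ℕ) : ℤ) := by
      rw [nm_castZ, lin_fst, lin_snd]
      have e1 : (((∑ i, (c i) ^ 2).toNat : ℕ) : ℤ) = ∑ i, (c i) ^ 2 := Int.toNat_of_nonneg (sum_nonneg fun i _ => sq_nonneg _)
      push_cast
      rw [e1, nm_castZ]
      have h2 := sum_sq_le c (fun i => (z i).1) a.1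
      have h3 := sum_sq_le c (fun i => (z i).2) a.2
      have h4 : ∑ i, c i ^ 2 * (z i).1 ^ 2 + ∑ i, c i ^ 2 * (z i).2 ^ 2 ≤ (∑ i, (c i) ^ 2) * N := by
        rw [← sum_add_distrib, sum_mul]
        apply sum_le_sum
        intro i _
        rw [← mul_add]
        exact mul_le_mul_of_nonneg_left (hz1 i) (sq_nonneg _)
      have h5 : a.1 ^ 2 + a.2 ^ 2 ≤ (a.1 ^ 2 + a.2 ^ 2) * (N:ℤ) := by
        nlinarith [sq_nonneg a.1, sq_nonneg a.2]
      have h6 : (0:ℤ) ≤ (k:ℤ) + 1 := by positivity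
      have h7 : ((k:ℤ) + 1) * (∑ i, c i ^ 2 * (z i).1 ^ 2 + a.1 ^ 2 + (∑ i, c i ^ 2 * (z i).2 ^ 2 + a.2 ^ 2)) ≤
          (k + 1) * ((∑ i, (c i) ^ 2 + (a.1 ^ 2 + a.2 ^ 2) + 1) * N) := by
        apply mul_le_mul_of_nonneg_left _ h6
        nlinarith
      nlinarith
    exact_mod_cast h1
  · intro i
    have h1 := mem_disc.mp (hz i)
    rw [mem_disc]
    refine ⟨h1.1, h1.2.trans ?_⟩
    apply Nat.le_mul_of_pos_left
    positivity

/-- summing a function of the value of a linear form -/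
lemma lin_sum (c : Fin k → ℤ) (a : ℤ × ℤ) {i : Fin k} (hi : c i ≠ 0) {K : ℕ} (hK : ∀ N : ℕ, 1 ≤ N → ∀ z ∈ discs k N,
    nm (lin c a z) ≤ K * N ∧ ∀ i, z i ∈ disc (K * N)) {N : ℕ} (hN : 1 ≤ N) {f : ℤ × ℤ → ℝ} (hf : ∀ w, 0 ≤ f w) :
    ∑ z ∈ discs k N, f (lin c a z) ≤ ((disc (K * N)).card + 1 : ℝ) ^ (k - 1) * (∑ w ∈ disc (K * N), f w + f 0) := by
  classical
  set φ : (Fin k → ℤ × ℤ) → (Fin k → ℤ × ℤ) := fun z => Function.update z i (lin c a z) with hφ
  have hinj : Function.Injective φ := by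
    intro z z' h
    have h1 : ∀ j, j ≠ i → z j = z' j := by
      intro j hj
      have := congrFun h j
      simp only [hφ, Function.update_of_ne hj] at this
      exact this
    have h2 : lin c a z = lin c a z' := by
      have := congrFun h i
      simp only [hφ, Function.update_self] at this
      exact this
    have h3 : c i • z i = c i • z' i := by
      unfold lin at h2
      have h4 := add_right_cancel h2
      rw [← add_sum_erase _ _ (mem_univ i), ← add_sum_erase _ _ (mem_univ i)] at h4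
      have h5 : ∑ j ∈ univ.erase i, c j • z j = ∑ j ∈ univ.erase i, c j • z' j :=
        sum_congr rfl (fun j hj => by rw [h1 j (ne_of_mem_erase hj)])
      rw [h5] at h4
      exact add_right_cancel h4
    funext j
    by_cases hj : j = i
    · subst hj
      have h6 := congrArg Prod.fst h3
      have h7 := congrArg Prod.snd h3
      simp only [Prod.smul_fst, Prod.smul_snd, smul_eq_mul] at h6 h7
      exact Prod.ext (mul_left_cancel₀ hi h6) (mul_left_cancel₀ hi h7)
    · exact h1 j hj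
  set s : Finset (ℤ × ℤ) := insert 0 (disc (K * N)) with hs
  have h0 : (0 : ℤ × ℤ) ∉ disc (K * N) := by
    rw [mem_disc]
    have : nm 0 = 0 := by simp [nm]
    omega
  have himg : (discs k N).image φ ⊆ Fintype.piFinset (fun _ => s) := by
    intro w hw
    rw [mem_image] at hw
    obtain ⟨z, hz, rfl⟩ := hw
    rw [Fintype.mem_piFinset]
    intro j
    obtain ⟨h1, h2⟩ := hK N hN z hz
    by_cases hj : j = i
    · subst hj
      simp only [hφ, Function.update_self]
      rw [hs, mem_insert, mem_disc]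
      by_cases h : lin c a z = 0
      · left; exact h
      · right
        refine ⟨?_, h1⟩
        by_contra hcon
        have h3 : nm (lin c a z) = 0 := by omega
        apply h
        have h4 : (lin c a z).1 ^ 2 + (lin c a z).2 ^ 2 = 0 := by rw [← nm_castZ, h3]; rfl
        have h5 : (lin c a z).1 = 0 := by
          have : (lin c a z).1 ^ 2 = 0 := by nlinarith [sq_nonneg (lin c a z).1, sq_nonneg (lin c a z).2]
          exact pow_eq_zero_iff (n := 2) (by norm_num) |>.1 this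
        have h6 : (lin c a z).2 = 0 := by
          have : (lin c a z).2 ^ 2 = 0 := by nlinarith [sq_nonneg (lin c a z).1, sq_nonneg (lin c a z).2]
          exact pow_eq_zero_iff (n := 2) (by norm_num) |>.1 this
        exact Prod.ext h5 h6
    · simp only [hφ, Function.update_of_ne hj]
      rw [hs, mem_insert]
      right; exact h2 j
  have e1 : ∑ z ∈ discs k N, f (lin c a z) = ∑ w ∈ (discs k N).image φ, f (w i) := by
    rw [sum_image (fun x _ y _ h => hinj h)]
    apply sum_congr rfl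
    intro z _
    simp only [hφ, Function.update_self]
  rw [e1]
  calc ∑ w ∈ (discs k N).image φ, f (w i) ≤ ∑ w ∈ Fintype.piFinset (fun _ : Fin k => s), f (w i) :=
        sum_le_sum_of_subset_of_nonneg himg (fun _ _ _ => hf _)
    _ = s.card ^ (k - 1) • ∑ b ∈ s, f b := by
        rw [Fintype.sum_piFinset_apply, Fintype.card_fin]
    _ = _ := by
        rw [hs, sum_insert h0, card_insert_of_notMem h0, nsmul_eq_mul]
        push_cast
        ring

/-- the mean square at the values of a linear form -/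
theorem lin_ms {c : Fin k → ℤ} (hc : c ≠ 0) (a : ℤ × ℤ) {η : ℝ} (hη : 0 < η) : ∃ M0 : ℕ, ∀ M : ℕ, M0 ≤ M →
    ∃ N0 : ℕ, ∀ N : ℕ, N0 ≤ N →
      ∑ z ∈ discs k N, (En √(nm (lin c a z) : ℝ) - UG √(nm (lin c a z) : ℝ) M)^2 ≤ η * (discs k N).card := by
  obtain ⟨i, hi⟩ := Function.ne_iff.mp hc
  rw [Pi.zero_apply] at hi
  obtain ⟨K, hK1, hK⟩ := lin_size c a
  have hk : 1 ≤ k := by
    rcases Nat.eq_zero_or_pos k with h | h
    · subst h; exact i.elim0
    · exact h
  have hKr : (1:ℝ) ≤ K := by exact_mod_cast hK1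
  set η' : ℝ := η * 2 ^ k / (5 * K) ^ k with hη'
  have hη'0 : 0 < η' := by positivity
  obtain ⟨M0, hM0⟩ := disc_ms hη'0
  refine ⟨M0, fun M hM => ?_⟩
  obtain ⟨N0, hN0⟩ := hM0 M hM
  obtain ⟨c0, hc0⟩ : ∃ c0 : ℝ, c0 = (En √((nm 0 : ℕ) : ℝ) - UG √((nm 0 : ℕ) : ℝ) M)^2 := ⟨_, rfl⟩
  have hc00 : 0 ≤ c0 := by rw [hc0]; exact sq_nonneg _
  have hpi3 := Real.pi_gt_three
  have hpi4 := Real.pi_lt_four
  have ev2 : ∀ᶠ N : ℕ in Filter.atTop, (2:ℝ) < ((disc N).card : ℝ) / N := card_disc.eventually_const_lt (by linarith)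
  have ev3 : ∀ᶠ N : ℕ in Filter.atTop, ((disc N).card : ℝ) / N < 4 := card_disc.eventually_lt_const (by linarith)
  have ev4 : ∀ᶠ N : ℕ in Filter.atTop, c0 / η' ≤ (N:ℝ) := tendsto_natCast_atTop_atTop.eventually_ge_atTop _
  obtain ⟨N1, hN1⟩ := Filter.eventually_atTop.mp (ev2.and (ev3.and ev4))
  refine ⟨max (max N1 N0) 1, fun N hN => ?_⟩
  have hNN1 : N1 ≤ N := le_trans (le_trans (le_max_left _ _) (le_max_left _ _)) hN
  have hNN0 : N0 ≤ N := le_trans (le_trans (le_max_right _ _) (le_max_left _ _)) hN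
  have hNone : 1 ≤ N := le_trans (le_max_right _ _) hN
  have hKN : N ≤ K * N := Nat.le_mul_of_pos_left _ hK1
  obtain ⟨g2, -, -⟩ := hN1 N hNN1
  obtain ⟨-, g3, g4⟩ := hN1 (K * N) (by omega)
  have k1 := hN0 (K * N) (by omega)
  have hNpos : (0:ℝ) < N := by exact_mod_cast hNone
  have hKNpos : (0:ℝ) < ((K * N : ℕ) : ℝ) := by exact_mod_cast (by omega : 0 < K * N)
  rw [lt_div_iff₀ hNpos] at g2
  rw [div_lt_iff₀ hKNpos] at g3
  rw [div_le_iff₀ hη'0] at g4
  push_cast at g3 g4 hKNpos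
  have hKN1 : (1:ℝ) ≤ K * N := by exact_mod_cast (by omega : 1 ≤ K * N)
  have hf := lin_sum c a hi hK hNone (f := fun w => (En √(nm w : ℝ) - UG √(nm w : ℝ) M)^2) (fun _ => sq_nonneg _)
  beta_reduce at hf
  rw [← hc0] at hf
  refine hf.trans ?_
  clear hf
  have s0 : 0 ≤ ∑ w ∈ disc (K * N), (En √(nm w : ℝ) - UG √(nm w : ℝ) M)^2 := sum_nonneg fun _ _ => sq_nonneg _
  generalize (∑ w ∈ disc (K * N), (En √(nm w : ℝ) - UG √(nm w : ℝ) M)^2) = S at k1 s0 ⊢
  have s1 : ((disc (K * N)).card + 1 : ℝ) ≤ 5 * (K * N) := by linarith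
  have s2 : S + c0 ≤ η' * (5 * (K * N)) := by
    have h1 : η' * ((disc (K * N)).card : ℝ) ≤ η' * (4 * (K * N)) := mul_le_mul_of_nonneg_left (by linarith) hη'0.le
    linarith
  have s3 : 0 ≤ S + c0 := by linarith
  calc _ ≤ (5 * ((K:ℝ) * N)) ^ (k - 1) * (η' * (5 * (K * N))) := by
        apply mul_le_mul (pow_le_pow_left₀ (by positivity) s1 _) s2 s3 (by positivity)
    _ = η' * (5 * (K * N)) ^ k := by
        have : k = (k - 1) + 1 := by omega
        conv_rhs => rw [this, pow_succ]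
        ring
    _ = η * (2 * N) ^ k := by
        rw [hη', mul_pow 2, ← mul_assoc 5, mul_pow (5 * (K:ℝ))]
        field_simp
    _ ≤ η * (discs k N).card := by
        apply mul_le_mul_of_nonneg_left _ hη.le
        rw [card_discs]
        push_cast
        exact pow_le_pow_left₀ (by positivity) g2.le _

end Pool.Agent.W2helper83.LF
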