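import Pool.Agent.W2helper83.LF.G
import Pool.Agent.W2helper83.LF.MS

/-! The characters in the values of the linear forms, and their averages. -/

open Filter Topology MeasureTheory
open Pool.Agent.H383
open Pool.Agent.H383.AP
open Pool.Agent.H383.Gauss Pool.Agent.H383.Circ
open Pool.Agent.H425R3.JL
open Pool.Agent.H469R2.NK
open Pool.Agent.W2helper83.GZ

namespace Pool.Agent.W2helper83.LF

variable {k m : ℕ}

/-- an enumeration of the tuples -/
noncomputable def tz (k : ℕ) (n : ℕ) : Fin k → ℤ × ℤ := (Encodable.decode n).getD 0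

lemma tz_encode (z : Fin k → ℤ × ℤ) : tz k (Encodable.encode z) = z := by
  unfold tz; rw [Encodable.encodek]; rfl

/-- the sets of indices -/
noncomputable def SK (k j : ℕ) : Finset ℕ := (discs k (j + 1)).map ⟨Encodable.encode, Encodable.encode_injective⟩

lemma fav_SK (F : (Fin k → ℤ × ℤ) → ℝ) (j : ℕ) :
    fav (SK k j) (fun n => F (tz k n)) = (∑ z ∈ discs k (j + 1), F z) / (discs k (j + 1)).card := by
  unfold fav SK
  rw [Finset.sum_map, Finset.card_map]
  congr 1
  apply Finset.sum_congr rfl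
  intro z _
  rw [Function.Embedding.coeFn_mk, tz_encode]

lemma cav_SK (F : (Fin k → ℤ × ℤ) → ℂ) (j : ℕ) :
    cav (SK k j) (fun n => F (tz k n)) = (∑ z ∈ discs k (j + 1), F z) / (discs k (j + 1)).card := by
  unfold cav SK
  rw [Finset.sum_map, Finset.card_map]
  congr 1
  apply Finset.sum_congr rfl
  intro z _
  rw [Function.Embedding.coeFn_mk, tz_encode]

lemma discs_ne (j : ℕ) : (discs k (j + 1)).Nonempty := by
  unfold discs
  rw [Fintype.piFinset_nonempty]
  exact fun _ => disc_ne j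

lemma SK_ne (j : ℕ) : (SK k j).Nonempty := by
  unfold SK
  rw [Finset.map_nonempty]
  exact discs_ne j

lemma cardK_pos (j : ℕ) : (0:ℝ) < (discs k (j + 1)).card := by
  exact_mod_cast Finset.card_pos.mpr (discs_ne j)

lemma ratioK {F : ℕ → ℂ} {L : ℂ} (h : Tendsto (fun N : ℕ => F N / (N:ℂ) ^ k) atTop (𝓝 (Real.pi ^ k * L))) :
    Tendsto (fun j : ℕ => F (j + 1) / ((discs k (j + 1)).card : ℂ)) atTop (𝓝 L) := by
  have hpi : ((Real.pi : ℂ) ^ k) ≠ 0 := pow_ne_zero _ (by exact_mod_cast Real.pi_ne_zero)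
  have h2 : Tendsto (fun N : ℕ => (((discs k N).card : ℂ)) / (N:ℂ) ^ k) atTop (𝓝 ((Real.pi : ℂ) ^ k)) := by
    have := (Complex.continuous_ofReal.tendsto _).comp (card_lim (k := k))
    rw [Complex.ofReal_pow] at this
    refine this.congr (fun N => ?_)
    simp only [Function.comp]
    push_cast; rfl
  have h3 := h.div h2 hpi
  rw [mul_div_cancel_left₀ _ hpi] at h3
  refine (succ_lim h3).congr (fun j => ?_)
  simp only [Pi.div_apply]
  have h4 : ((j + 1 : ℕ) : ℂ) ≠ 0 := by exact_mod_cast (Nat.succ_ne_zero j)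
  have h5 : ((discs k (j + 1)).card : ℂ) ≠ 0 := by exact_mod_cast (Finset.card_pos.mpr (discs_ne j)).ne'
  field_simp

/-- the characters -/
noncomputable def chL (c : Fin m → Fin k → ℤ) (a : Fin m → ℤ × ℤ) (p : (Fin m → ℝ) × C(Fin m → ℂ, ℂ)) : ℕ → ℂ :=
  fun n => e (ph p.1 c a (tz k n)) * p.2 (dirs c a (tz k n))

lemma chL_bdd (c : Fin m → Fin k → ℤ) (a : Fin m → ℤ × ℤ) (p : (Fin m → ℝ) × C(Fin m → ℂ, ℂ)) :
    ∃ B : ℝ, 0 ≤ B ∧ ∀ n, ‖chL c a p n‖ ≤ B := by
  obtain ⟨B, hB0, hB⟩ := cmap_bddK p.2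
  refine ⟨B, hB0, fun n => ?_⟩
  unfold chL
  rw [norm_mul, norm_e, one_mul]
  exact hB _ (norm_dirs c a _)

lemma ph_add (θ θ' : Fin m → ℝ) (c : Fin m → Fin k → ℤ) (a : Fin m → ℤ × ℤ) (z : Fin k → ℤ × ℤ) :
    ph (θ + θ') c a z = ph θ c a z + ph θ' c a z := by
  unfold ph
  rw [← Finset.sum_add_distrib]
  apply Finset.sum_congr rfl
  intro p _
  rw [Pi.add_apply]; ring

lemma ph_zero (c : Fin m → Fin k → ℤ) (a : Fin m → ℤ × ℤ) (z : Fin k → ℤ × ℤ) : ph 0 c a z = 0 := by
  unfold ph; simp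

lemma chL_mul (c : Fin m → Fin k → ℤ) (a : Fin m → ℤ × ℤ) (p p' : (Fin m → ℝ) × C(Fin m → ℂ, ℂ)) :
    chL c a p * chL c a p' = chL c a (p.1 + p'.1, p.2 * p'.2) := by
  funext n
  simp only [chL, Pi.mul_apply, ContinuousMap.mul_apply]
  rw [ph_add, e_add]
  ring

lemma chL_one (c : Fin m → Fin k → ℤ) (a : Fin m → ℤ × ℤ) : chL c a (0, 1) = 1 := by
  funext n
  simp only [chL, ph_zero, ContinuousMap.one_apply, mul_one, Pi.one_apply]
  simp [e]

/-- the algebra generated by the characters -/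
def AL (c : Fin m → Fin k → ℤ) (a : Fin m → ℤ × ℤ) : G.Alg where
  TS := Submodule.span ℂ (Set.range (chL c a))
  one := by rw [← chL_one c a]; exact Submodule.subset_span ⟨_, rfl⟩
  mul := by
    intro x y hx hy
    have h : ∀ θ, ∀ b ∈ Submodule.span ℂ (Set.range (chL c a)), chL c a θ * b ∈ Submodule.span ℂ (Set.range (chL c a)) := by
      intro θ b hb
      induction hb using Submodule.span_induction with
      | mem x hx =>
        obtain ⟨θ', rfl⟩ := hx
        rw [chL_mul]; exact Submodule.subset_span ⟨_, rfl⟩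
      | zero => rw [mul_zero]; exact Submodule.zero_mem _
      | add x y _ _ hx hy => rw [mul_add]; exact Submodule.add_mem _ hx hy
      | smul c x _ hx => rw [mul_smul_comm]; exact Submodule.smul_mem _ c hx
    induction hx using Submodule.span_induction with
    | mem x hx =>
      obtain ⟨θ, rfl⟩ := hx
      exact h θ _ hy
    | zero => rw [zero_mul]; exact Submodule.zero_mem _
    | add x y _ _ hx hy => rw [add_mul]; exact Submodule.add_mem _ hx hy
    | smul c x _ hx => rw [smul_mul_assoc]; exact Submodule.smul_mem _ c hx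
  bdd := by
    intro x h
    induction h using Submodule.span_induction with
    | mem x hx =>
      obtain ⟨θ, rfl⟩ := hx
      exact chL_bdd c a θ
    | zero => exact ⟨0, le_refl _, fun n => by simp⟩
    | add x y _ _ hx hy =>
      obtain ⟨B, hB0, hB⟩ := hx
      obtain ⟨B', hB0', hB'⟩ := hy
      exact ⟨B + B', by positivity, fun n => (norm_add_le _ _).trans (add_le_add (hB n) (hB' n))⟩
    | smul c x _ hx =>
      obtain ⟨B, hB0, hB⟩ := hx
      refine ⟨‖c‖ * B, by positivity, fun n => ?_⟩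
      rw [Pi.smul_apply, norm_smul]
      exact mul_le_mul_of_nonneg_left (hB n) (norm_nonneg _)

/-- the mean over the configurations -/
noncomputable def sg (c : Fin m → Fin k → ℤ) (g : (Fin m → ℂ) → ℂ) : ℂ := (∫ y in dom k, g (drs c y)) / Real.pi ^ k

/-- the mean value of a character -/
noncomputable def mcL (c : Fin m → Fin k → ℤ) (p : (Fin m → ℝ) × C(Fin m → ℂ, ℂ)) : ℂ := if p.1 = 0 then sg c p.2 else 0

theorem SK_ch {c : Fin m → Fin k → ℤ} (hc : Indep c) (a : Fin m → ℤ × ℤ) (p : (Fin m → ℝ) × C(Fin m → ℂ, ℂ)) :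
    Tendsto (fun j => cav (SK k j) (chL c a p)) atTop (𝓝 (mcL c p)) := by
  have e1 : ∀ j, cav (SK k j) (chL c a p) = (∑ z ∈ discs k (j + 1), e (ph p.1 c a z) * p.2 (dirs c a z)) / ((discs k (j + 1)).card : ℂ) :=
    fun j => cav_SK (fun z => e (ph p.1 c a z) * p.2 (dirs c a z)) j
  simp only [e1]
  have hpi : ((Real.pi : ℂ) ^ k) ≠ 0 := pow_ne_zero _ (by exact_mod_cast Real.pi_ne_zero)
  unfold mcL
  split_ifs with h
  · have h1 := dirs_equi hc.1 a p.2
    have h2 := ratioK (F := fun N => ∑ z ∈ discs k N, p.2 (dirs c a z)) (L := sg c p.2) (by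
      unfold sg
      rw [mul_div_cancel₀ _ hpi]
      exact h1)
    refine h2.congr (fun j => ?_)
    congr 1
    apply Finset.sum_congr rfl
    intro z _
    rw [h, ph_zero]
    unfold e; simp
  · exact ratioK (F := fun N => ∑ z ∈ discs k N, e (ph p.1 c a z) * p.2 (dirs c a z)) (L := 0) (by
      rw [mul_zero]; exact osc h hc a p.2)

theorem SK_Av {c : Fin m → Fin k → ℤ} (hc : Indep c) (a : Fin m → ℤ × ℤ) : G.Av (AL c a) (SK k) := by
  intro t ht
  change t ∈ Submodule.span ℂ (Set.range (chL c a)) at ht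
  induction ht using Submodule.span_induction with
  | mem x hx =>
    obtain ⟨θ, rfl⟩ := hx
    exact ⟨mcL c θ, SK_ch hc a θ⟩
  | zero => exact ⟨0, by
      have : ∀ j, cav (SK k j) 0 = 0 := fun j => by simp [cav]
      simp only [this]; exact tendsto_const_nhds⟩
  | add x y _ _ hx hy =>
    obtain ⟨L, hS⟩ := hx
    obtain ⟨L', hS'⟩ := hy
    refine ⟨L + L', ?_⟩
    simp only [cav_add]
    exact hS.add hS'
  | smul c x _ hx =>
    obtain ⟨L, hS⟩ := hx
    refine ⟨c * L, ?_⟩
    simp only [cav_smul]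
    exact hS.const_mul c

end Pool.Agent.W2helper83.LF
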