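import Pool.Agent.W2helper83.LF.Prod

/-! The joint limit law of the directions and of the errors at the values of independent linear forms. -/

open Filter Topology MeasureTheory
open Pool.Agent.H383
open Pool.Agent.H383.AP
open Pool.Agent.H383.Gen (Bd U Ap)
open Pool.Agent.H383.Gauss Pool.Agent.H383.Circ
open Pool.Agent.H425R3.JL
open Pool.Agent.H469R2.NK
open Pool.Agent.W24.CP
open Pool.Agent.W24.CP.SU (SI SI_ne SI_Av SI_card)
open Pool.Agent.W2helper83.GZ
open Finset

namespace Pool.Agent.W2helper83.LF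

variable {k m : ℕ}

/-- the normalised errors at the linear forms -/
noncomputable def ers (c : Fin m → Fin k → ℤ) (a : Fin m → ℤ × ℤ) (z : Fin k → ℤ × ℤ) : Fin m → ℝ :=
  fun p => En √(nm (lin (c p) (a p) z) : ℝ)

/-- the statistics of a tuple of lattice points -/
noncomputable def EVL (c : Fin m → Fin k → ℤ) (a : Fin m → ℤ × ℤ) (z : Fin k → ℤ × ℤ) : (Fin m × Fin 2) ⊕ Fin m → ℝ :=
  Sum.elim (fun i => if i.2 = 0 then (dirs c a z i.1).re else (dirs c a z i.1).im) (ers c a z)

/-- their approximations -/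
noncomputable def UVL (c : Fin m → Fin k → ℤ) (a : Fin m → ℤ × ℤ) (M : ℕ) (z : Fin k → ℤ × ℤ) : (Fin m × Fin 2) ⊕ Fin m → ℝ :=
  Sum.elim (fun i => if i.2 = 0 then (dirs c a z i.1).re else (dirs c a z i.1).im)
    (fun p => UG √(nm (lin (c p) (a p) z) : ℝ) M)

lemma dirs_TS (c : Fin m → Fin k → ℤ) (a : Fin m → ℤ × ℤ) (g : C(Fin m → ℂ, ℂ)) : (fun n => g (dirs c a (tz k n))) ∈ (AL c a).TS := by
  have : (fun n => g (dirs c a (tz k n))) = chL c a (0, g) := by
    funext n
    simp only [chL, ph_zero, e_zero, one_mul]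
  rw [this]
  exact Submodule.subset_span ⟨_, rfl⟩

lemma ph_single (c : Fin m → Fin k → ℤ) (a : Fin m → ℤ × ℤ) (p : Fin m) (θ : ℝ) (z : Fin k → ℤ × ℤ) :
    ph (Pi.single p θ) c a z = θ * √(nm (lin (c p) (a p) z) : ℝ) := by
  unfold ph
  rw [Finset.sum_eq_single p]
  · rw [Pi.single_eq_same]
  · intro b _ hb
    rw [Pi.single_eq_of_ne hb, zero_mul]
  · intro h; exact absurd (Finset.mem_univ p) h

lemma rad_pull (c : Fin m → Fin k → ℤ) (a : Fin m → ℤ × ℤ) (p : Fin m) {t : ℕ → ℂ} (ht : t ∈ SL.TS) :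
    (fun n => t (nm (lin (c p) (a p) (tz k n)))) ∈ (AL c a).TS := by
  unfold SL.TS at ht
  induction ht using Submodule.span_induction with
  | mem x hx =>
    obtain ⟨θ, rfl⟩ := hx
    have : (fun n => SL.chS θ (nm (lin (c p) (a p) (tz k n)))) = chL c a (Pi.single p θ, 1) := by
      funext n
      simp only [chL, ph_single, SL.chS, ContinuousMap.one_apply, mul_one]
    rw [this]
    exact Submodule.subset_span ⟨_, rfl⟩
  | zero => exact (AL c a).TS.zero_mem
  | add x y _ _ hx hy => exact (AL c a).TS.add_mem hx hy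
  | smul d x _ hx => exact (AL c a).TS.smul_mem d hx

lemma UVL_TS (c : Fin m → Fin k → ℤ) (a : Fin m → ℤ × ℤ) (M : ℕ) (i : (Fin m × Fin 2) ⊕ Fin m) :
    (fun n => ((UVL c a M (tz k n) i : ℝ) : ℂ)) ∈ (AL c a).TS := by
  rcases i with i | p
  · by_cases h : i.2 = 0
    · have := dirs_TS c a ⟨fun w => (((w i.1).re : ℝ) : ℂ), by fun_prop⟩
      simp only [UVL, Sum.elim_inl, if_pos h]
      exact this
    · have := dirs_TS c a ⟨fun w => (((w i.1).im : ℝ) : ℂ), by fun_prop⟩
      simp only [UVL, Sum.elim_inl, if_neg h]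
      exact this
  · exact rad_pull c a p (UG_TS M)

lemma UVL_Ap {c : Fin m → Fin k → ℤ} (hc : ∀ p, c p ≠ 0) (a : Fin m → ℤ × ℤ) :
    ApU (fun M n => UVL c a M (tz k n)) (fun n => EVL c a (tz k n)) (SK k) := by
  intro η hη
  have h1 : ∀ i : Fin m, ∃ M0 : ℕ, ∀ M : ℕ, M0 ≤ M → ∃ j0 : ℕ, ∀ j : ℕ, j0 ≤ j →
      fav (SK k j) (fun n => (En √(nm (lin (c i) (a i) (tz k n)) : ℝ) - UG √(nm (lin (c i) (a i) (tz k n)) : ℝ) M)^2) ≤ η / (m + 1) :=
    fun i => fav_lin (c i) (hc i) (a i) (by positivity)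
  choose M0 hM0 using h1
  refine ⟨∑ i, M0 i, fun M hM => ?_⟩
  have h2 : ∀ i : Fin m, ∃ j0 : ℕ, ∀ j : ℕ, j0 ≤ j →
      fav (SK k j) (fun n => (En √(nm (lin (c i) (a i) (tz k n)) : ℝ) - UG √(nm (lin (c i) (a i) (tz k n)) : ℝ) M)^2) ≤ η / (m + 1) :=
    fun i => hM0 i M ((single_le_sum (f := M0) (fun _ _ => Nat.zero_le _) (mem_univ i)).trans hM)
  choose j0 hj0 using h2
  refine ⟨∑ i, j0 i, fun j hj => ?_⟩
  have e1 : ∀ n, q (EVL c a (tz k n) - UVL c a M (tz k n)) =
      ∑ i : Fin m, (En √(nm (lin (c i) (a i) (tz k n)) : ℝ) - UG √(nm (lin (c i) (a i) (tz k n)) : ℝ) M)^2 := by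
    intro n
    unfold q
    rw [Fintype.sum_sum_type]
    have : ∑ i : Fin m × Fin 2, ((EVL c a (tz k n) - UVL c a M (tz k n)) (Sum.inl i))^2 = 0 := by
      apply sum_eq_zero
      intro i _
      simp [EVL, UVL]
    rw [this, zero_add]
    rfl
  simp only [e1]
  rw [SX.fav_sum]
  calc ∑ i : Fin m, fav (SK k j) (fun n => (En √(nm (lin (c i) (a i) (tz k n)) : ℝ) - UG √(nm (lin (c i) (a i) (tz k n)) : ℝ) M)^2) ≤ ∑ _i : Fin m, η / (m + 1) :=
        sum_le_sum fun i _ => hj0 i j ((single_le_sum (f := j0) (fun _ _ => Nat.zero_le _) (mem_univ i)).trans hj)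
    _ = m * (η / (m + 1)) := by rw [sum_const, card_univ, Fintype.card_fin, nsmul_eq_mul]
    _ ≤ η := by
        rw [mul_div_assoc', div_le_iff₀ (by positivity)]
        nlinarith

/-- assembling the coordinates -/
noncomputable def PHL (x : (Fin m × Fin 2) ⊕ Fin m → ℝ) : (Fin m → ℂ) × (Fin m → ℝ) :=
  (fun p => (x (Sum.inl (p, 0)) : ℂ) + (x (Sum.inl (p, 1)) : ℂ) * Complex.I, fun i => x (Sum.inr i))

lemma PHL_cont : Continuous (PHL : ((Fin m × Fin 2) ⊕ Fin m → ℝ) → (Fin m → ℂ) × (Fin m → ℝ)) := by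
  unfold PHL; fun_prop

lemma PHL_EV (c : Fin m → Fin k → ℤ) (a : Fin m → ℤ × ℤ) (z : Fin k → ℤ × ℤ) : PHL (EVL c a z) = (dirs c a z, ers c a z) := by
  unfold PHL EVL
  simp only [Sum.elim_inl, Sum.elim_inr, if_true, one_ne_zero, if_false]
  congr 1
  funext p
  exact Complex.re_add_im _

/-- a set has the right density if its boundary is negligible -/
theorem law_setL (c : Fin m → Fin k → ℤ) (a : Fin m → ℤ × ℤ) {μ : ProbabilityMeasure ((Fin m × Fin 2) ⊕ Fin m → ℝ)}
    (h : ∀ f : ((Fin m × Fin 2) ⊕ Fin m → ℝ) → ℝ, Continuous f → (∃ B, ∀ x, |f x| ≤ B) →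
      Tendsto (fun j => fav (SK k j) (fun n => f (EVL c a (tz k n)))) atTop (𝓝 (∫ x, f x ∂(μ : Measure ((Fin m × Fin 2) ⊕ Fin m → ℝ)))))
    (D : Set ((Fin m × Fin 2) ⊕ Fin m → ℝ)) [DecidablePred (· ∈ D)] (hD : (μ : Measure ((Fin m × Fin 2) ⊕ Fin m → ℝ)) (frontier D) = 0) :
    Tendsto (fun j => fav (SK k j) (fun n => if EVL c a (tz k n) ∈ D then (1:ℝ) else 0)) atTop
      (𝓝 ((μ : Measure ((Fin m × Fin 2) ⊕ Fin m → ℝ)).real D)) := by
  haveI : ∀ j, IsProbabilityMeasure (emp (SK k j) (fun n => EVL c a (tz k n))) := fun j => emp_prob (SK_ne j) _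
  set P : ℕ → ProbabilityMeasure ((Fin m × Fin 2) ⊕ Fin m → ℝ) := fun j => ⟨emp (SK k j) (fun n => EVL c a (tz k n)), inferInstance⟩ with hP
  have h1 : Tendsto P atTop (𝓝 μ) := by
    rw [ProbabilityMeasure.tendsto_iff_forall_integral_tendsto]
    intro f
    have h2 := h f f.continuous ⟨‖f‖, fun x => by rw [← Real.norm_eq_abs]; exact f.norm_coe_le_norm x⟩
    refine h2.congr (fun j => ?_)
    exact (emp_int (SK k j) _ f.continuous).symm
  have h2 := ProbabilityMeasure.tendsto_measure_of_null_frontier_of_tendsto' h1 hD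
  have h3 := (ENNReal.tendsto_toReal (measure_ne_top (μ : Measure ((Fin m × Fin 2) ⊕ Fin m → ℝ)) D)).comp h2
  refine h3.congr (fun j => ?_)
  simp only [Function.comp, hP, ProbabilityMeasure.coe_mk]
  have hms : (emp (SK k j) (fun n => EVL c a (tz k n))) D = ((SK k j).card : ENNReal)⁻¹ * ∑ n ∈ SK k j, (if EVL c a (tz k n) ∈ D then (1:ENNReal) else 0) := by
    unfold Pool.Agent.H425R3.JL.emp
    rw [Measure.smul_apply, Measure.coe_finsetSum, Finset.sum_apply, smul_eq_mul]
    congr 1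
    apply sum_congr rfl
    intro n _
    rw [Measure.dirac_apply, Set.indicator_apply]
    simp only [Pi.one_apply]
  rw [hms, ENNReal.toReal_mul, ENNReal.toReal_inv, ENNReal.toReal_natCast, ENNReal.toReal_sum (by intro n _; split_ifs <;> simp)]
  unfold fav
  rw [div_eq_inv_mul]
  congr 1
  apply sum_congr rfl
  intro n _
  beta_reduce
  by_cases hh : EVL c a (tz k n) ∈ D
  · rw [if_pos hh, if_pos hh, ENNReal.toReal_one]
  · rw [if_neg hh, if_neg hh, ENNReal.toReal_zero]

/-- the volume of the domain -/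
lemma vol_dom : volume (dom k) = ENNReal.ofReal (Real.pi ^ k) := by
  have h1 := riemann' (k := k) (Φ := fun _ _ => 1) (B := 1) (fun _ _ => by simp) (Ψ := fun _ => 1)
    (Eventually.of_forall fun _ => tendsto_const_nhds)
  have h2 := (Complex.continuous_ofReal.tendsto _).comp (card_lim (k := k))
  have h3 : (∫ _y in dom k, (1:ℂ)) = (((Real.pi ^ k : ℝ)) : ℂ) := by
    refine tendsto_nhds_unique h1 (h2.congr (fun N => ?_))
    simp only [Function.comp]
    rw [sum_const, nsmul_eq_mul, mul_one]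
    push_cast; rfl
  have hf : volume (dom k) ≠ ⊤ := ((measure_mono dom_box).trans_lt (lt_top_iff_ne_top.mpr box_fin)).ne
  rw [setIntegral_const, Measure.real, Complex.real_smul, mul_one] at h3
  have h4 : (volume (dom k)).toReal = Real.pi ^ k := by exact_mod_cast h3
  rw [← h4, ENNReal.ofReal_toReal hf]

/-- the distribution of the shape of a uniform random configuration: the directions of the linear forms at `k` independent
uniform points of the unit disc -/
noncomputable def shp (c : Fin m → Fin k → ℤ) : Measure (Fin m → ℂ) :=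
  ENNReal.ofReal (1 / Real.pi ^ k) • (volume.restrict (dom k)).map (drs c)

instance shp_prob (c : Fin m → Fin k → ℤ) : IsProbabilityMeasure (shp c) := by
  constructor
  unfold shp
  rw [Measure.smul_apply, Measure.map_apply (drs_meas c) MeasurableSet.univ, Set.preimage_univ, Measure.restrict_apply_univ,
    vol_dom, smul_eq_mul, ← ENNReal.ofReal_mul (by positivity)]
  have hpi := Real.pi_pos
  have : 1 / Real.pi ^ k * Real.pi ^ k = 1 := by field_simp
  rw [this, ENNReal.ofReal_one]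

lemma shp_int (c : Fin m → Fin k → ℤ) {g : (Fin m → ℂ) → ℂ} (hg : Continuous g) : ∫ w, g w ∂(shp c) = sg c g := by
  unfold shp sg
  have hpi := Real.pi_pos
  rw [integral_smul_measure, integral_map (drs_meas c).aemeasurable hg.aestronglyMeasurable,
    ENNReal.toReal_ofReal (by positivity), Complex.real_smul]
  push_cast
  rw [div_mul_eq_mul_div, one_mul]

/-- the joint law -/
theorem jointL {c : Fin m → Fin k → ℤ} (hc : Indep c) (a : Fin m → ℤ × ℤ) {ν : ProbabilityMeasure ℝ}
    (hν : ∀ F : ℝ → ℝ, Continuous F → (∃ B, ∀ x, |F x| ≤ B) →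
      Tendsto (fun j => fav (SI j) (fun n => F (En √(n:ℝ)))) atTop (𝓝 (∫ x, F x ∂(ν : Measure ℝ)))) :
    (∀ f : (Fin m → ℂ) × (Fin m → ℝ) → ℝ, Continuous f → (∃ C, ∀ x, |f x| ≤ C * (1 + ∑ i, (x.2 i)^2)) →
        Tendsto (fun j => fav (SK k j) (fun n => f (dirs c a (tz k n), ers c a (tz k n)))) atTop
          (𝓝 (∫ x, f x ∂((shp c).prod (Measure.pi fun _ : Fin m => (ν : Measure ℝ)))))) ∧
    (∀ (D : Set ((Fin m → ℂ) × (Fin m → ℝ))) [DecidablePred (· ∈ D)],
        ((shp c).prod (Measure.pi fun _ : Fin m => (ν : Measure ℝ))) (frontier D) = 0 →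
        Tendsto (fun j => fav (SK k j) (fun n => if (dirs c a (tz k n), ers c a (tz k n)) ∈ D then (1:ℝ) else 0)) atTop
          (𝓝 (((shp c).prod (Measure.pi fun _ : Fin m => (ν : Measure ℝ))).real D))) := by
  obtain ⟨μ', m1, m2⟩ := G.law (AL c a) (UVL_TS c a) SK_ne (SK_Av hc a) (UVL_Ap hc.1 a)
  have hPm : AEMeasurable (PHL : ((Fin m × Fin 2) ⊕ Fin m → ℝ) → (Fin m → ℂ) × (Fin m → ℝ)) (μ' : Measure ((Fin m × Fin 2) ⊕ Fin m → ℝ)) :=
    PHL_cont.measurable.aemeasurable
  set μ : ProbabilityMeasure ((Fin m → ℂ) × (Fin m → ℝ)) := μ'.map hPm with hμ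
  have hμc : (μ : Measure ((Fin m → ℂ) × (Fin m → ℝ))) = (μ' : Measure ((Fin m × Fin 2) ⊕ Fin m → ℝ)).map PHL := by
    rw [hμ, ProbabilityMeasure.toMeasure_map]
  have hq : ∀ x : (Fin m × Fin 2) ⊕ Fin m → ℝ, ∑ i, ((PHL x).2 i)^2 ≤ q x := by
    intro x
    unfold q PHL
    rw [Fintype.sum_sum_type]
    have : 0 ≤ ∑ i : Fin m × Fin 2, (x (Sum.inl i))^2 := sum_nonneg fun _ _ => sq_nonneg _
    linarith
  have hlaw : ∀ f : (Fin m → ℂ) × (Fin m → ℝ) → ℝ, Continuous f → (∃ C, ∀ x, |f x| ≤ C * (1 + ∑ i, (x.2 i)^2)) →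
        Tendsto (fun j => fav (SK k j) (fun n => f (dirs c a (tz k n), ers c a (tz k n)))) atTop
          (𝓝 (∫ x, f x ∂(μ : Measure ((Fin m → ℂ) × (Fin m → ℝ))))) := by
    intro f hf hC
    obtain ⟨C, hC⟩ := hC
    have hC0 : 0 ≤ C := by
      have h1 := (abs_nonneg _).trans (hC (0, 0))
      simp only [Pi.zero_apply, ne_eq, OfNat.ofNat_ne_zero, not_false_eq_true, zero_pow, sum_const_zero, add_zero, mul_one] at h1
      exact h1
    have h1 := m2 (fun x => f (PHL x)) (hf.comp PHL_cont) ⟨C, fun x => (hC _).trans (by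
      apply mul_le_mul_of_nonneg_left _ hC0
      linarith [hq x])⟩
    rw [hμc, integral_map hPm hf.aestronglyMeasurable]
    simp only [PHL_EV] at h1
    exact h1
  -- identification of the limit
  have hid : (μ : Measure ((Fin m → ℂ) × (Fin m → ℝ))) = (shp c).prod (Measure.pi fun _ : Fin m => (ν : Measure ℝ)) := by
    rw [← charFunDual_eq_prod_iff]
    intro L
    set L1 : (Fin m → ℂ) → ℝ := fun w => L (w, 0) with hL1
    set γ : Fin m → ℝ := fun p => L (0, Pi.single p 1) with hγ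
    have hL2 : ∀ x : Fin m → ℝ, L (0, x) = ∑ p, γ p * x p := by
      intro x
      have e1 : ((0 : Fin m → ℂ), x) = ∑ p, x p • ((0 : Fin m → ℂ), (Pi.single p 1 : Fin m → ℝ)) := by
        ext i
        · rw [Prod.fst_sum]
          simp
        · rw [Prod.snd_sum]
          simp only [Prod.smul_snd, Finset.sum_apply, Pi.smul_apply, smul_eq_mul]
          rw [Finset.sum_eq_single i]
          · rw [Pi.single_eq_same, mul_one]
          · intro b _ hb
            rw [Pi.single_eq_of_ne' hb, mul_zero]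
          · intro h; exact absurd (Finset.mem_univ i) h
      rw [e1, map_sum]
      apply sum_congr rfl
      intro p _
      rw [map_smul, smul_eq_mul, mul_comm]
    have hL : ∀ (w : Fin m → ℂ) (x : Fin m → ℝ), L (w, x) = L1 w + ∑ p, γ p * x p := by
      intro w x
      have e1 : ((w, x) : (Fin m → ℂ) × (Fin m → ℝ)) = (w, 0) + (0, x) := by
        ext <;> simp
      rw [e1, map_add, hL2]
    have hL1c : Continuous L1 := by
      rw [hL1]; fun_prop
    set g : C(Fin m → ℂ, ℂ) := ⟨fun w => Complex.exp ((L1 w : ℂ) * Complex.I), by fun_prop⟩ with hg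
    have t3 := prod_law hc a hν γ g
    -- the left side from the law
    have hFc : Continuous (fun x : (Fin m → ℂ) × (Fin m → ℝ) => L x) := L.continuous
    have hs : ∀ x : (Fin m → ℂ) × (Fin m → ℝ), 0 ≤ ∑ i, (x.2 i)^2 := fun x => sum_nonneg fun _ _ => sq_nonneg _
    have s1 := hlaw (fun x => Real.cos (L x)) (by fun_prop) ⟨1, fun x => (Real.abs_cos_le_one _).trans (by linarith [hs x])⟩
    have s2 := hlaw (fun x => Real.sin (L x)) (by fun_prop) ⟨1, fun x => (Real.abs_sin_le_one _).trans (by linarith [hs x])⟩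
    have s3 := ((Complex.continuous_ofReal.tendsto _).comp s1).add (((Complex.continuous_ofReal.tendsto _).comp s2).const_mul Complex.I)
    have hfun : ∀ n, ((Real.cos (L (dirs c a (tz k n), ers c a (tz k n))) : ℝ) : ℂ) +
        Complex.I * ((Real.sin (L (dirs c a (tz k n), ers c a (tz k n))) : ℝ) : ℂ) =
        g (dirs c a (tz k n)) * ∏ p, xE (γ p) (En √(nm (lin (c p) (a p) (tz k n)) : ℝ)) := by
      intro n
      rw [hL, Complex.ofReal_cos, Complex.ofReal_sin]
      have e1 : ∀ y : ℂ, Complex.cos y + Complex.I * Complex.sin y = Complex.exp (y * Complex.I) := by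
        intro y; rw [Complex.exp_mul_I]; ring
      rw [e1]
      simp only [hg, ContinuousMap.coe_mk, xE]
      rw [← Complex.exp_sum, ← Complex.exp_add]
      congr 1
      rw [← Finset.sum_mul, ← add_mul]
      congr 1
      push_cast
      rfl
    have heq : ∀ j, ((fav (SK k j) (fun n => Real.cos (L (dirs c a (tz k n), ers c a (tz k n)))) : ℝ) : ℂ) +
        Complex.I * ((fav (SK k j) (fun n => Real.sin (L (dirs c a (tz k n), ers c a (tz k n)))) : ℝ) : ℂ) =
        cav (SK k j) (fun n => g (dirs c a (tz k n)) * ∏ p, xE (γ p) (En √(nm (lin (c p) (a p) (tz k n)) : ℝ))) := by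
      intro j
      rw [← cav_ofReal, ← cav_ofReal, ← smul_eq_mul, ← cav_smul, ← cav_add]
      congr 1
      funext n
      simp only [Pi.add_apply, Pi.smul_apply, smul_eq_mul]
      exact hfun n
    have hlim := tendsto_nhds_unique (s3.congr (fun j => by simpa only [Function.comp] using heq j)) t3
    have g1 : charFunDual (μ : Measure ((Fin m → ℂ) × (Fin m → ℝ))) L =
        ((∫ x, Real.cos (L x) ∂(μ : Measure ((Fin m → ℂ) × (Fin m → ℝ))) : ℝ) : ℂ) +
        Complex.I * ((∫ x, Real.sin (L x) ∂(μ : Measure ((Fin m → ℂ) × (Fin m → ℝ))) : ℝ) : ℂ) := by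
      rw [charFunDual_apply, ← integral_complex_ofReal, ← integral_complex_ofReal, ← integral_const_mul, ← integral_add]
      · congr 1; funext x
        rw [Complex.exp_mul_I]
        push_cast
        ring
      · apply Integrable.ofReal
        apply Integrable.of_bound (C := 1) (Real.continuous_cos.comp hFc).aestronglyMeasurable
        exact Eventually.of_forall fun x => by rw [Real.norm_eq_abs]; exact Real.abs_cos_le_one _
      · apply Integrable.const_mul
        apply Integrable.ofReal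
        apply Integrable.of_bound (C := 1) (Real.continuous_sin.comp hFc).aestronglyMeasurable
        exact Eventually.of_forall fun x => by rw [Real.norm_eq_abs]; exact Real.abs_sin_le_one _
    have g2 : charFunDual (shp c) (L.comp (.inl ℝ (Fin m → ℂ) (Fin m → ℝ))) = sg c g := by
      rw [charFunDual_apply, ← shp_int c g.continuous]
      rfl
    have g3 : charFunDual (Measure.pi fun _ : Fin m => (ν : Measure ℝ)) (L.comp (.inr ℝ (Fin m → ℂ) (Fin m → ℝ))) =
        ∏ p, ∫ x, xE (γ p) x ∂(ν : Measure ℝ) := by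
      rw [charFunDual_pi]
      apply prod_congr rfl
      intro p _
      rw [charFunDual_apply]
      congr 1
      funext x
      unfold xE
      congr 3
      change L ((0 : Fin m → ℂ), (Pi.single p x : Fin m → ℝ)) = γ p * x
      rw [hL2, Finset.sum_eq_single p]
      · rw [Pi.single_eq_same]
      · intro b _ hb
        rw [Pi.single_eq_of_ne hb, mul_zero]
      · intro h; exact absurd (Finset.mem_univ p) h
    rw [g1, g2, g3]
    exact hlim
  rw [← hid]
  refine ⟨hlaw, ?_⟩
  intro D _ hD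
  classical
  have h1 : (μ' : Measure ((Fin m × Fin 2) ⊕ Fin m → ℝ)) (frontier (PHL ⁻¹' D)) = 0 := by
    apply measure_mono_null (PHL_cont.frontier_preimage_subset D)
    rw [hμc, Measure.map_apply PHL_cont.measurable isClosed_frontier.measurableSet] at hD
    exact hD
  have h2 := law_setL c a (fun f hf hB => m2 f hf (by
    obtain ⟨B, hB⟩ := hB
    refine ⟨B, fun x => ?_⟩
    have h3 := hB x
    have h4 : 0 ≤ B := (abs_nonneg _).trans h3
    nlinarith [q_nonneg x])) (PHL ⁻¹' D) h1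
  have h3 : (μ' : Measure ((Fin m × Fin 2) ⊕ Fin m → ℝ)).real (PHL ⁻¹' D) = (μ : Measure ((Fin m → ℂ) × (Fin m → ℝ))).real D := by
    have hn : NullMeasurableSet D (μ : Measure ((Fin m → ℂ) × (Fin m → ℝ))) := nullMeasurableSet_of_null_frontier hD
    unfold Measure.real
    congr 1
    rw [hμc] at hn ⊢
    rw [Measure.map_apply₀ hPm hn]
  rw [h3] at h2
  refine h2.congr (fun j => ?_)
  congr 1; funext n
  have : (EVL c a (tz k n) ∈ PHL ⁻¹' D) ↔ (dirs c a (tz k n), ers c a (tz k n)) ∈ D := by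
    rw [Set.mem_preimage, PHL_EV]
  by_cases hh : (dirs c a (tz k n), ers c a (tz k n)) ∈ D
  · rw [if_pos hh, if_pos (this.mpr hh)]
  · rw [if_neg hh, if_neg (fun h => hh (this.mp h))]

end Pool.Agent.W2helper83.LF
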