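import Pool.Agent.W2helper83.LF.Rie

/-! Limits along scaled lattice points; linear forms. -/

open Filter Topology MeasureTheory
open Pool.Agent.H383.AP
open Pool.Agent.H425R3.JL
open Pool.Agent.H469R2.NK
open Pool.Agent.W2helper83.GZ

namespace Pool.Agent.W2helper83.LF

variable {k : ℕ}

/-- `w N / √N` tends to `y` -/
def Scl (w : ℕ → ℤ × ℤ) (y : ℝ × ℝ) : Prop :=
  Tendsto (fun N : ℕ => ((w N).1 : ℝ) / √(N:ℝ)) atTop (𝓝 y.1) ∧ Tendsto (fun N : ℕ => ((w N).2 : ℝ) / √(N:ℝ)) atTop (𝓝 y.2)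

lemma const_lim (c : ℝ) : Tendsto (fun N : ℕ => c / √(N:ℝ)) atTop (𝓝 0) :=
  tendsto_const_nhds.div_atTop tendsto_sqrtN

lemma Scl.add {w : ℕ → ℤ × ℤ} {y : ℝ × ℝ} (h : Scl w y) (c : ℤ × ℤ) : Scl (fun N => w N + c) y := by
  constructor
  · have h1 := h.1.add (const_lim (c.1:ℝ))
    rw [add_zero] at h1
    refine h1.congr (fun N => ?_)
    rw [Prod.fst_add]; push_cast; ring
  · have h1 := h.2.add (const_lim (c.2:ℝ))
    rw [add_zero] at h1
    refine h1.congr (fun N => ?_)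
    rw [Prod.snd_add]; push_cast; ring

lemma Scl.nm {w : ℕ → ℤ × ℤ} {y : ℝ × ℝ} (hw : Scl w y) :
    Tendsto (fun N : ℕ => ((nm (w N) : ℕ) : ℝ) / N) atTop (𝓝 (y.1 ^ 2 + y.2 ^ 2)) := by
  have h := (hw.1.pow 2).add (hw.2.pow 2)
  refine h.congr (fun N => ?_)
  rw [nm_cast, div_pow, div_pow, ← add_div, Real.sq_sqrt (Nat.cast_nonneg _)]

lemma Scl.rt {w : ℕ → ℤ × ℤ} {y : ℝ × ℝ} (hw : Scl w y) :
    Tendsto (fun N : ℕ => √((GZ.nm (w N) : ℕ) : ℝ) / √(N:ℝ)) atTop (𝓝 √(y.1 ^ 2 + y.2 ^ 2)) := by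
  have h := (Real.continuous_sqrt.tendsto _).comp hw.nm
  refine h.congr (fun N => ?_)
  simp only [Function.comp]
  rw [Real.sqrt_div (Nat.cast_nonneg _)]

lemma ev_sqrt : ∀ᶠ N : ℕ in atTop, 0 < √(N:ℝ) := by
  rw [eventually_atTop]
  exact ⟨1, fun N hN => Real.sqrt_pos.mpr (by exact_mod_cast hN)⟩

lemma Scl.dir {w : ℕ → ℤ × ℤ} {y : ℝ × ℝ} (hw : Scl w y) (hy : y ≠ 0) :
    Tendsto (fun N : ℕ => GZ.dir (w N)) atTop (𝓝 (dr y)) := by
  have h1 : Tendsto (fun N : ℕ => ((((w N).1 : ℝ) / √(N:ℝ) : ℝ) : ℂ)) atTop (𝓝 (y.1 : ℂ)) :=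
    (Complex.continuous_ofReal.tendsto _).comp hw.1
  have h2 : Tendsto (fun N : ℕ => ((((w N).2 : ℝ) / √(N:ℝ) : ℝ) : ℂ)) atTop (𝓝 (y.2 : ℂ)) :=
    (Complex.continuous_ofReal.tendsto _).comp hw.2
  have h3 : Tendsto (fun N : ℕ => ((√((GZ.nm (w N) : ℕ) : ℝ) / √(N:ℝ) : ℝ) : ℂ)) atTop (𝓝 ((√(y.1 ^ 2 + y.2 ^ 2) : ℝ) : ℂ)) :=
    (Complex.continuous_ofReal.tendsto _).comp hw.rt
  have h4 := (h1.add (h2.mul_const Complex.I)).div h3 (by
    rw [Complex.ofReal_ne_zero]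
    exact (Real.sqrt_pos.mpr (sq_pos_of hy)).ne')
  refine h4.congr' ?_
  filter_upwards [ev_sqrt] with N hs
  have hs' : ((√(N:ℝ) : ℝ) : ℂ) ≠ 0 := by rw [Complex.ofReal_ne_zero]; exact hs.ne'
  unfold GZ.dir
  simp only [Pi.div_apply]
  push_cast
  rw [div_mul_eq_mul_div, ← add_div, div_div_div_cancel_right₀ hs']

lemma Scl.rad {w : ℕ → ℤ × ℤ} {y : ℝ × ℝ} (hw : Scl w y) (hy : y ≠ 0) (c : ℤ × ℤ) :
    Tendsto (fun N : ℕ => √((GZ.nm (w N + c) : ℕ) : ℝ) - √((GZ.nm (w N) : ℕ) : ℝ)) atTop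
      (𝓝 (c.1 * (dr y).re + c.2 * (dr y).im)) := by
  have hp := Real.sqrt_pos.mpr (sq_pos_of hy)
  have hd := (hw.add c).rt.add hw.rt
  have h0 : Tendsto (fun N : ℕ => ((c.1:ℝ)^2 + (c.2:ℝ)^2) / √(N:ℝ)) atTop (𝓝 0) :=
    tendsto_const_nhds.div_atTop tendsto_sqrtN
  have hn := ((hw.1.const_mul (2 * (c.1:ℝ))).add (hw.2.const_mul (2 * (c.2:ℝ)))).add h0
  have h := hn.div hd (by positivity)
  have e : (2 * (c.1:ℝ) * y.1 + 2 * (c.2:ℝ) * y.2 + 0) / (√(y.1 ^ 2 + y.2 ^ 2) + √(y.1 ^ 2 + y.2 ^ 2)) =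
      c.1 * (dr y).re + c.2 * (dr y).im := by
    have h1 : (dr y).re = y.1 / √(y.1 ^ 2 + y.2 ^ 2) := by
      unfold dr
      rw [Complex.div_ofReal_re]; simp
    have h2 : (dr y).im = y.2 / √(y.1 ^ 2 + y.2 ^ 2) := by
      unfold dr
      rw [Complex.div_ofReal_im]; simp
    rw [h1, h2]
    field_simp
    ring
  rw [e] at h
  refine h.congr' ?_
  have hpos : ∀ᶠ N : ℕ in atTop, 0 < √((GZ.nm (w N + c) : ℕ) : ℝ) / √(N:ℝ) + √((GZ.nm (w N) : ℕ) : ℝ) / √(N:ℝ) :=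
    hd.eventually (lt_mem_nhds (by positivity))
  filter_upwards [hpos, ev_sqrt] with N h1 h2
  rw [← add_div] at h1
  have h3 : 0 < √((GZ.nm (w N + c) : ℕ) : ℝ) + √((GZ.nm (w N) : ℕ) : ℝ) := by
    have := mul_pos h1 h2
    rwa [div_mul_cancel₀ _ h2.ne'] at this
  simp only [Pi.div_apply]
  rw [← add_div, ← mul_div_assoc, ← mul_div_assoc, ← add_div, ← add_div, div_div_div_cancel_right₀ h2.ne', div_eq_iff h3.ne']
  have e1 : (√((GZ.nm (w N + c) : ℕ) : ℝ) - √((GZ.nm (w N) : ℕ) : ℝ)) * (√((GZ.nm (w N + c) : ℕ) : ℝ) + √((GZ.nm (w N) : ℕ) : ℝ)) =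
      ((GZ.nm (w N + c) : ℕ) : ℝ) - ((GZ.nm (w N) : ℕ) : ℝ) := by
    have a1 := Real.mul_self_sqrt (Nat.cast_nonneg (α := ℝ) (GZ.nm (w N + c)))
    have a2 := Real.mul_self_sqrt (Nat.cast_nonneg (α := ℝ) (GZ.nm (w N)))
    linear_combination a1 - a2
  rw [e1, nm_cast, nm_cast]
  simp only [Prod.fst_add, Prod.snd_add]
  push_cast
  ring

/-- an integer linear form in lattice points, with a constant term -/
def lin (c : Fin k → ℤ) (a : ℤ × ℤ) (z : Fin k → ℤ × ℤ) : ℤ × ℤ := ∑ i, c i • z i + a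

/-- the same linear form in points of the plane -/
def linR (c : Fin k → ℤ) (y : Fin k → ℝ × ℝ) : ℝ × ℝ := ∑ i, (c i : ℝ) • y i

lemma lin_fst (c : Fin k → ℤ) (a : ℤ × ℤ) (z : Fin k → ℤ × ℤ) : (lin c a z).1 = ∑ i, c i * (z i).1 + a.1 := by
  unfold lin; rw [Prod.fst_add, Prod.fst_sum]; simp

lemma lin_snd (c : Fin k → ℤ) (a : ℤ × ℤ) (z : Fin k → ℤ × ℤ) : (lin c a z).2 = ∑ i, c i * (z i).2 + a.2 := by
  unfold lin; rw [Prod.snd_add, Prod.snd_sum]; simp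

lemma linR_fst (c : Fin k → ℤ) (y : Fin k → ℝ × ℝ) : (linR c y).1 = ∑ i, (c i : ℝ) * (y i).1 := by
  unfold linR; rw [Prod.fst_sum]; simp

lemma linR_snd (c : Fin k → ℤ) (y : Fin k → ℝ × ℝ) : (linR c y).2 = ∑ i, (c i : ℝ) * (y i).2 := by
  unfold linR; rw [Prod.snd_sum]; simp

lemma lin_add (c : Fin k → ℤ) (a : ℤ × ℤ) (z h : Fin k → ℤ × ℤ) : lin c a (z + h) = lin c a z + lin c 0 h := by
  unfold lin
  simp only [Pi.add_apply, smul_add, Finset.sum_add_distrib, add_zero]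
  abel

lemma lin_single (c : Fin k → ℤ) (i : Fin k) (h : ℤ × ℤ) : lin c 0 (Pi.single i h) = c i • h := by
  unfold lin
  rw [add_zero, Finset.sum_eq_single i]
  · rw [Pi.single_eq_same]
  · intro j _ hj
    rw [Pi.single_eq_of_ne hj, smul_zero]
  · intro hi; exact absurd (Finset.mem_univ i) hi

/-- the tuple of lattice points near `√N y`, translated by `h` -/
noncomputable def Pt (N : ℕ) (y : Fin k → ℝ × ℝ) (h : Fin k → ℤ × ℤ) : Fin k → ℤ × ℤ := flk (√(N:ℝ) • y) + h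

lemma Pt_apply (N : ℕ) (y : Fin k → ℝ × ℝ) (h : Fin k → ℤ × ℤ) (i : Fin k) : Pt N y h i = pt N (y i) (h i) := rfl

lemma Pt_zero (N : ℕ) (y : Fin k → ℝ × ℝ) : Pt N y 0 = flk (√(N:ℝ) • y) := by unfold Pt; rw [add_zero]

lemma Pt_add (N : ℕ) (y : Fin k → ℝ × ℝ) (h : Fin k → ℤ × ℤ) : Pt N y 0 + h = Pt N y h := by rw [Pt_zero]; rfl

lemma lin_Scl (c : Fin k → ℤ) (a : ℤ × ℤ) (y : Fin k → ℝ × ℝ) (h : Fin k → ℤ × ℤ) :
    Scl (fun N => lin c a (Pt N y h)) (linR c y) := by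
  constructor
  · have h1 : Tendsto (fun N : ℕ => ∑ i, (c i : ℝ) * (((pt N (y i) (h i)).1 : ℝ) / √(N:ℝ)) + (a.1:ℝ) / √(N:ℝ)) atTop
        (𝓝 (∑ i, (c i : ℝ) * (y i).1 + 0)) :=
      (tendsto_finsetSum _ (fun i _ => (pt1_lim (y i) (h i)).const_mul _)).add (const_lim _)
    rw [add_zero, ← linR_fst] at h1
    refine h1.congr (fun N => ?_)
    rw [lin_fst]
    push_cast
    rw [add_div, Finset.sum_div]
    congr 1
    apply Finset.sum_congr rfl
    intro i _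
    rw [Pt_apply, mul_div_assoc]
  · have h1 : Tendsto (fun N : ℕ => ∑ i, (c i : ℝ) * (((pt N (y i) (h i)).2 : ℝ) / √(N:ℝ)) + (a.2:ℝ) / √(N:ℝ)) atTop
        (𝓝 (∑ i, (c i : ℝ) * (y i).2 + 0)) :=
      (tendsto_finsetSum _ (fun i _ => (pt2_lim (y i) (h i)).const_mul _)).add (const_lim _)
    rw [add_zero, ← linR_snd] at h1
    refine h1.congr (fun N => ?_)
    rw [lin_snd]
    push_cast
    rw [add_div, Finset.sum_div]
    congr 1
    apply Finset.sum_congr rfl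
    intro i _
    rw [Pt_apply, mul_div_assoc]

/-- the linear form as a linear map -/
noncomputable def linM (c : Fin k → ℤ) : (Fin k → ℝ × ℝ) →ₗ[ℝ] ℝ × ℝ where
  toFun := linR c
  map_add' := by
    intro x y
    unfold linR
    simp only [Pi.add_apply, smul_add, Finset.sum_add_distrib]
  map_smul' := by
    intro t x
    unfold linR
    simp only [Pi.smul_apply, RingHom.id_apply, Finset.smul_sum]
    apply Finset.sum_congr rfl
    intro i _
    rw [smul_comm]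

lemma linR_add (c : Fin k → ℤ) (x y : Fin k → ℝ × ℝ) : linR c (x + y) = linR c x + linR c y := (linM c).map_add x y

lemma linR_smul (c : Fin k → ℤ) (t : ℝ) (y : Fin k → ℝ × ℝ) : linR c (t • y) = t • linR c y := (linM c).map_smul t y

lemma linR_cont (c : Fin k → ℤ) : Continuous (linR c) := by
  unfold linR; fun_prop

/-- a linear form vanishes almost nowhere -/
lemma ae_linR {c : Fin k → ℤ} (hc : c ≠ 0) : ∀ᵐ y : Fin k → ℝ × ℝ, linR c y ≠ 0 := by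
  obtain ⟨i, hi⟩ := Function.ne_iff.mp hc
  have hne : LinearMap.ker (linM c) ≠ ⊤ := by
    intro h
    have h1 : (Pi.single i ((1:ℝ), (0:ℝ)) : Fin k → ℝ × ℝ) ∈ LinearMap.ker (linM c) := by rw [h]; trivial
    rw [LinearMap.mem_ker] at h1
    change linR c (Pi.single i ((1:ℝ), (0:ℝ))) = 0 at h1
    have h2 := congrArg Prod.fst h1
    rw [linR_fst, Finset.sum_eq_single i] at h2
    · rw [Pi.single_eq_same] at h2
      simp only [mul_one, Prod.fst_zero, Int.cast_eq_zero] at h2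
      exact hi h2
    · intro j _ hj
      rw [Pi.single_eq_of_ne hj]; simp
    · intro h; exact absurd (Finset.mem_univ i) h
  have h2 := Measure.addHaar_submodule (volume : Measure (Fin k → ℝ × ℝ)) _ hne
  rw [ae_iff]
  simp only [not_not]
  exact h2

/-- the product of the open unit discs -/
def dom (k : ℕ) : Set (Fin k → ℝ × ℝ) := {y | ∀ i, (y i).1 ^ 2 + (y i).2 ^ 2 < 1}

lemma dom_meas : MeasurableSet (dom k) := by
  have : dom k = ⋂ i, {y : Fin k → ℝ × ℝ | (y i).1 ^ 2 + (y i).2 ^ 2 < 1} := by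
    ext y; simp [dom]
  rw [this]
  exact MeasurableSet.iInter (fun i => measurableSet_lt (by fun_prop) (by fun_prop))

lemma dom_box : dom k ⊆ box k := by
  intro y hy i _
  have h := hy i
  refine Set.mem_prod.mpr ⟨⟨?_, ?_⟩, ?_, ?_⟩ <;> nlinarith [sq_nonneg (y i).1, sq_nonneg (y i).2]

lemma ae_goods : ∀ᵐ y : Fin k → ℝ × ℝ, ∀ i, y i ≠ 0 ∧ (y i).1 ^ 2 + (y i).2 ^ 2 ≠ 1 := by
  rw [ae_all_iff]
  intro i
  exact (Measure.quasiMeasurePreserving_eval (fun _ : Fin k => (volume : Measure (ℝ × ℝ))) i).ae ae_good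

lemma mem_lims {y : Fin k → ℝ × ℝ} (hy : ∀ i, y i ≠ 0 ∧ (y i).1 ^ 2 + (y i).2 ^ 2 ≠ 1) (h : Fin k → ℤ × ℤ) :
    ∀ᶠ N : ℕ in atTop, (Pt N y h ∈ discs k N ↔ y ∈ dom k) := by
  have h1 : ∀ᶠ N : ℕ in atTop, ∀ i, (pt N (y i) (h i) ∈ disc N ↔ (y i).1 ^ 2 + (y i).2 ^ 2 < 1) :=
    eventually_all.mpr (fun i => mem_lim (hy i).1 (hy i).2 (h i))
  filter_upwards [h1] with N h2
  rw [mem_discs]
  simp only [Pt_apply, h2]
  rfl

open Classical in
/-- the general form of the limit theorem -/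
lemma riemann' {Φ : ℕ → (Fin k → ℤ × ℤ) → ℂ} {B : ℝ} (hB : ∀ N z, ‖Φ N z‖ ≤ B) {Ψ : (Fin k → ℝ × ℝ) → ℂ}
    (h : ∀ᵐ y : Fin k → ℝ × ℝ, Tendsto (fun N : ℕ => Φ N (Pt N y 0)) atTop (𝓝 (Ψ y))) :
    Tendsto (fun N : ℕ => (∑ z ∈ discs k N, Φ N z) / (N:ℂ) ^ k) atTop (𝓝 (∫ y in dom k, Ψ y)) := by
  rw [← integral_indicator dom_meas]
  apply riemann hB
  filter_upwards [h, ae_goods] with y h1 h2
  have h3 := mem_lims h2 0
  rw [Set.indicator_apply]
  split_ifs with h4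
  · refine h1.congr' ?_
    filter_upwards [h3] with N h5
    rw [← Pt_zero, if_pos (h5.mpr h4)]
  · refine tendsto_const_nhds.congr' ?_
    filter_upwards [h3] with N h5
    rw [← Pt_zero, if_neg (fun h6 => h4 (h5.mp h6))]

/-- the number of tuples -/
lemma card_lim : Tendsto (fun N : ℕ => ((discs k N).card : ℝ) / (N:ℝ) ^ k) atTop (𝓝 (Real.pi ^ k)) := by
  refine (card_disc.pow k).congr (fun N => ?_)
  rw [card_discs, div_pow]; push_cast; rfl

open Classical in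
/-- translations change few tuples -/
lemma shift_small (h : Fin k → ℤ × ℤ) :
    Tendsto (fun N : ℕ => (((discs k N).filter (fun z => z + h ∉ discs k N)).card : ℝ) / (N:ℝ) ^ k) atTop (𝓝 0) := by
  have h0 := riemann' (Φ := fun N z => if z + h ∉ discs k N then 1 else 0) (B := 1) (fun N z => by
    split_ifs <;> simp) (Ψ := fun y => if y ∈ dom k then 0 else 1) (by
    filter_upwards [ae_goods] with y hy
    have h1 := mem_lims hy h
    refine tendsto_const_nhds.congr' ?_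
    filter_upwards [h1] with N h2
    rw [Pt_add]
    by_cases a : y ∈ dom k
    · rw [if_pos a, if_neg (not_not.mpr (h2.mpr a))]
    · rw [if_neg a, if_pos (fun b => a (h2.mp b))])
  have e : (∫ y in dom k, (if y ∈ dom k then (0:ℂ) else 1)) = 0 := by
    rw [setIntegral_congr_fun (g := fun _ => (0:ℂ)) dom_meas (fun y hy => if_pos hy), integral_zero]
  rw [e] at h0
  have h2 := (Complex.continuous_re.tendsto _).comp h0
  simp only [Complex.zero_re] at h2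
  refine h2.congr (fun N => ?_)
  simp only [Function.comp]
  rw [← Finset.sum_filter, Finset.sum_const, nsmul_eq_mul, mul_one, ← Complex.ofReal_natCast, ← Complex.ofReal_natCast,
    ← Complex.ofReal_pow, ← Complex.ofReal_div, Complex.ofReal_re]

end Pool.Agent.W2helper83.LF
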