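import Pool.Agent.W2helper83.LF.Res

/-! Oscillating sums over tuples of lattice points. -/

open Filter Topology MeasureTheory
open Pool.Agent.H383.AP
open Pool.Agent.H425R3.JL
open Pool.Agent.H469R2.NK
open Pool.Agent.W2helper83.GZ

namespace Pool.Agent.W2helper83.LF

variable {k m : ℕ}

/-- translated sums -/
lemma shift_sum {α : Type*} [AddCommGroup α] [DecidableEq α] (D : Finset α) (c : α) {f : α → ℂ} {B : ℝ} (hf : ∀ z, ‖f z‖ ≤ B) :
    ‖∑ z ∈ D, f (z + c) - ∑ z ∈ D, f z‖ ≤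
      B * ((D.filter (fun z => z + c ∉ D)).card + (D.filter (fun z => z + -c ∉ D)).card) := by
  set D' := D.map (Equiv.addRight c).toEmbedding with hD'
  have h1 : ∑ z ∈ D, f (z + c) = ∑ z ∈ D', f z := by
    rw [hD', Finset.sum_map]; rfl
  rw [h1, ← Finset.sum_sdiff_sub_sum_sdiff]
  have c1 : (D' \ D).card = (D.filter (fun z => z + c ∉ D)).card := by
    have : D' \ D = (D.filter (fun z => z + c ∉ D)).map (Equiv.addRight c).toEmbedding := by
      ext w
      simp only [hD', Finset.mem_sdiff, Finset.mem_map, Finset.mem_filter, Equiv.toEmbedding_apply, Equiv.coe_addRight]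
      constructor
      · rintro ⟨⟨z, hz, rfl⟩, h2⟩; exact ⟨z, ⟨hz, h2⟩, rfl⟩
      · rintro ⟨z, ⟨hz, h2⟩, rfl⟩; exact ⟨⟨z, hz, rfl⟩, h2⟩
    rw [this, Finset.card_map]
  have c2 : (D \ D').card = (D.filter (fun z => z + -c ∉ D)).card := by
    have : D \ D' = D.filter (fun z => z + -c ∉ D) := by
      ext w
      simp only [hD', Finset.mem_sdiff, Finset.mem_map, Finset.mem_filter, Equiv.toEmbedding_apply, Equiv.coe_addRight]
      constructor
      · rintro ⟨h2, h3⟩
        refine ⟨h2, fun h4 => h3 ⟨w + -c, h4, by simp⟩⟩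
      · rintro ⟨h2, h3⟩
        refine ⟨h2, ?_⟩
        rintro ⟨z, hz, rfl⟩
        exact h3 (by simpa using hz)
    rw [this]
  have b : ∀ S : Finset α, ‖∑ z ∈ S, f z‖ ≤ S.card * B := by
    intro S
    refine (norm_sum_le _ _).trans ?_
    calc ∑ z ∈ S, ‖f z‖ ≤ ∑ z ∈ S, B := Finset.sum_le_sum (fun z _ => hf z)
      _ = _ := by rw [Finset.sum_const, nsmul_eq_mul]
  calc ‖∑ z ∈ D' \ D, f z - ∑ z ∈ D \ D', f z‖ ≤ ‖∑ z ∈ D' \ D, f z‖ + ‖∑ z ∈ D \ D', f z‖ := norm_sub_le _ _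
    _ ≤ (D' \ D).card * B + (D \ D').card * B := add_le_add (b _) (b _)
    _ = _ := by rw [c1, c2]; ring

lemma shift_lim (h : Fin k → ℤ × ℤ) {f : (Fin k → ℤ × ℤ) → ℂ} {B : ℝ} (hf : ∀ z, ‖f z‖ ≤ B) :
    Tendsto (fun N : ℕ => (∑ z ∈ discs k N, f (z + h) - ∑ z ∈ discs k N, f z) / (N:ℂ) ^ k) atTop (𝓝 0) := by
  classical
  have hB0 : 0 ≤ B := (norm_nonneg _).trans (hf 0)
  have h1 := ((shift_small h).add (shift_small (-h))).const_mul B
  simp only [add_zero, mul_zero] at h1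
  apply squeeze_zero_norm _ h1
  intro N
  rw [norm_div, norm_pow, Complex.norm_natCast, ← add_div, ← mul_div_assoc]
  refine div_le_div_of_nonneg_right ((shift_sum _ h hf).trans (le_of_eq ?_)) (by positivity)
  congr!

/-- the directions of the linear forms -/
noncomputable def dirs (c : Fin m → Fin k → ℤ) (a : Fin m → ℤ × ℤ) (z : Fin k → ℤ × ℤ) : Fin m → ℂ :=
  fun p => dir (lin (c p) (a p) z)

/-- the directions of the linear forms in the limit -/
noncomputable def drs (c : Fin m → Fin k → ℤ) (y : Fin k → ℝ × ℝ) : Fin m → ℂ := fun p => dr (linR (c p) y)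

/-- the phase -/
noncomputable def ph (θ : Fin m → ℝ) (c : Fin m → Fin k → ℤ) (a : Fin m → ℤ × ℤ) (z : Fin k → ℤ × ℤ) : ℝ :=
  ∑ p, θ p * √(nm (lin (c p) (a p) z) : ℝ)

lemma norm_dirs (c : Fin m → Fin k → ℤ) (a : Fin m → ℤ × ℤ) (z : Fin k → ℤ × ℤ) : ‖dirs c a z‖ ≤ 1 := by
  rw [pi_norm_le_iff_of_nonneg zero_le_one]
  intro p
  exact norm_dir_le _

lemma norm_drs (c : Fin m → Fin k → ℤ) (y : Fin k → ℝ × ℝ) : ‖drs c y‖ ≤ 1 := by
  rw [pi_norm_le_iff_of_nonneg zero_le_one]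
  intro p
  exact dr_norm_le _

lemma cmap_bddK (g : C(Fin m → ℂ, ℂ)) : ∃ B : ℝ, 0 ≤ B ∧ ∀ u : Fin m → ℂ, ‖u‖ ≤ 1 → ‖g u‖ ≤ B := by
  obtain ⟨B, hB⟩ := (isCompact_closedBall (0 : Fin m → ℂ) 1).exists_bound_of_continuousOn g.continuous.continuousOn
  refine ⟨|B|, abs_nonneg _, fun u hu => ?_⟩
  refine (hB _ ?_).trans (le_abs_self _)
  rwa [mem_closedBall_zero_iff]

lemma dr_meas : Measurable dr := by
  unfold dr; fun_prop

lemma drs_meas (c : Fin m → Fin k → ℤ) : Measurable (drs c) := by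
  unfold drs
  apply measurable_pi_lambda
  intro p
  exact dr_meas.comp (linR_cont (c p)).measurable

lemma ae_lins {c : Fin m → Fin k → ℤ} (hc : ∀ p, c p ≠ 0) : ∀ᵐ y : Fin k → ℝ × ℝ, ∀ p, linR (c p) y ≠ 0 := by
  rw [ae_all_iff]
  exact fun p => ae_linR (hc p)

lemma dirs_lim {c : Fin m → Fin k → ℤ} (a : Fin m → ℤ × ℤ) {y : Fin k → ℝ × ℝ} (hy : ∀ p, linR (c p) y ≠ 0) (h : Fin k → ℤ × ℤ) :
    Tendsto (fun N => dirs c a (Pt N y h)) atTop (𝓝 (drs c y)) := by
  rw [tendsto_pi_nhds]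
  intro p
  exact (lin_Scl (c p) (a p) y h).dir (hy p)

/-- the directions are equidistributed -/
lemma dirs_equi {c : Fin m → Fin k → ℤ} (hc : ∀ p, c p ≠ 0) (a : Fin m → ℤ × ℤ) (g : C(Fin m → ℂ, ℂ)) :
    Tendsto (fun N : ℕ => (∑ z ∈ discs k N, g (dirs c a z)) / (N:ℂ) ^ k) atTop (𝓝 (∫ y in dom k, g (drs c y))) := by
  obtain ⟨B, _, hB⟩ := cmap_bddK g
  apply riemann' (Φ := fun _ z => g (dirs c a z)) (B := B) (fun _ z => hB _ (norm_dirs c a z))
  filter_upwards [ae_lins hc] with y hy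
  exact (g.continuous.tendsto _).comp (dirs_lim a hy 0)

lemma ph_diff (θ : Fin m → ℝ) (c : Fin m → Fin k → ℤ) (a : Fin m → ℤ × ℤ) {y : Fin k → ℝ × ℝ} (hy : ∀ p, linR (c p) y ≠ 0)
    (i : Fin k) (h : ℕ) :
    Tendsto (fun N => ph θ c a (Pt N y (Pi.single i ((h:ℤ), 0))) - ph θ c a (Pt N y 0)) atTop (𝓝 (Phi θ c i y * h)) := by
  have h1 : ∀ p, Tendsto (fun N => √(nm (lin (c p) (a p) (Pt N y (Pi.single i ((h:ℤ), 0)))) : ℝ) - √(nm (lin (c p) (a p) (Pt N y 0)) : ℝ)) atTop
      (𝓝 (c p i * h * cs (linR (c p) y))) := by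
    intro p
    have h2 := (lin_Scl (c p) (a p) y 0).rad (hy p) (c p i • ((h:ℤ), (0:ℤ)))
    have e1 : (((c p i • ((h:ℤ), (0:ℤ))).1 : ℤ) : ℝ) * (dr (linR (c p) y)).re + (((c p i • ((h:ℤ), (0:ℤ))).2 : ℤ) : ℝ) * (dr (linR (c p) y)).im =
        c p i * h * cs (linR (c p) y) := by
      rw [dr_re]
      simp
    rw [e1] at h2
    refine h2.congr (fun N => ?_)
    rw [← Pt_add N y (Pi.single i ((h:ℤ), 0)), lin_add, lin_single]
  have h3 : Tendsto (fun N => ∑ p, θ p * (√(nm (lin (c p) (a p) (Pt N y (Pi.single i ((h:ℤ), 0)))) : ℝ) - √(nm (lin (c p) (a p) (Pt N y 0)) : ℝ))) atTop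
      (𝓝 (∑ p, θ p * (c p i * h * cs (linR (c p) y)))) :=
    tendsto_finsetSum _ (fun p _ => (h1 p).const_mul _)
  have e2 : ∑ p, θ p * (c p i * h * cs (linR (c p) y)) = Phi θ c i y * h := by
    unfold Phi
    rw [Finset.sum_mul]
    apply Finset.sum_congr rfl
    intro p _
    ring
  rw [e2] at h3
  refine h3.congr (fun N => ?_)
  unfold ph
  rw [← Finset.sum_sub_distrib]
  apply Finset.sum_congr rfl
  intro p _
  ring

lemma e_cont : Continuous e := by unfold e; fun_prop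

/-- the basic oscillating sums -/
theorem osc {θ : Fin m → ℝ} (hθ : θ ≠ 0) {c : Fin m → Fin k → ℤ} (hc : Indep c) (a : Fin m → ℤ × ℤ) (g : C(Fin m → ℂ, ℂ)) :
    Tendsto (fun N : ℕ => (∑ z ∈ discs k N, e (ph θ c a z) * g (dirs c a z)) / (N:ℂ) ^ k) atTop (𝓝 0) := by
  obtain ⟨p0, hp0⟩ := Function.ne_iff.mp hθ
  obtain ⟨i, hi⟩ := Function.ne_iff.mp (hc.1 p0)
  have h0 : θ p0 * c p0 i ≠ 0 := mul_ne_zero hp0 (by exact_mod_cast hi)
  obtain ⟨B, hB0, hB⟩ := cmap_bddK g
  set sh : ℕ → Fin k → ℤ × ℤ := fun h => Pi.single i ((h:ℤ), 0) with hsh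
  set f : (Fin k → ℤ × ℤ) → ℂ := fun z => e (ph θ c a z) * g (dirs c a z) with hf
  have hfB : ∀ z, ‖f z‖ ≤ B := by
    intro z
    simp only [hf]
    rw [norm_mul, norm_e, one_mul]
    exact hB _ (norm_dirs c a z)
  -- the averaged sums
  set FH : ℕ → (Fin k → ℤ × ℤ) → ℂ := fun H z => (∑ h ∈ Finset.range H, f (z + sh h)) / H with hFH
  have hFB : ∀ H z, ‖FH H z‖ ≤ B := by
    intro H z
    simp only [hFH]
    rw [norm_div, Complex.norm_natCast]
    rcases Nat.eq_zero_or_pos H with rfl | hH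
    · simpa using hB0
    rw [div_le_iff₀ (by exact_mod_cast hH)]
    refine (norm_sum_le _ _).trans ?_
    calc ∑ h ∈ Finset.range H, ‖f (z + sh h)‖ ≤ ∑ h ∈ Finset.range H, B := Finset.sum_le_sum (fun h _ => hfB _)
      _ = B * H := by rw [Finset.sum_const, Finset.card_range, nsmul_eq_mul, mul_comm]
  set J : ℕ → ℝ := fun H => ∫ y in dom k, ‖DH (Phi θ c i y) H * g (drs c y)‖ with hJ
  have hlim : ∀ H, Tendsto (fun N : ℕ => (∑ z ∈ discs k N, ‖FH H z‖) / (N:ℝ) ^ k) atTop (𝓝 (J H)) := by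
    intro H
    have h := riemann' (Φ := fun _ z => ((‖FH H z‖ : ℝ) : ℂ)) (B := B) (fun _ z => by
      rw [Complex.norm_real, norm_norm]; exact hFB H z)
      (Ψ := fun y => ((‖DH (Phi θ c i y) H * g (drs c y)‖ : ℝ) : ℂ)) (by
      filter_upwards [ae_lins hc.1] with y hy
      apply (Complex.continuous_ofReal.tendsto _).comp
      -- divide by a unimodular factor
      have hx : ∀ N : ℕ, ‖FH H (Pt N y 0)‖ = ‖(∑ h ∈ Finset.range H,
          e (ph θ c a (Pt N y (sh h)) - ph θ c a (Pt N y 0)) * g (dirs c a (Pt N y (sh h)))) / H‖ := by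
        intro N
        have h1 : FH H (Pt N y 0) = e (ph θ c a (Pt N y 0)) * ((∑ h ∈ Finset.range H,
          e (ph θ c a (Pt N y (sh h)) - ph θ c a (Pt N y 0)) * g (dirs c a (Pt N y (sh h)))) / H) := by
          simp only [hFH, hf]
          rw [← mul_div_assoc, Finset.mul_sum]
          congr 1
          apply Finset.sum_congr rfl
          intro h _
          rw [Pt_add, ← mul_assoc, ← e_add]
          congr 2
          ring
        rw [h1, norm_mul, norm_e, one_mul]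
      simp only [hx]
      apply Tendsto.norm
      have h2 : DH (Phi θ c i y) H * g (drs c y) = (∑ h ∈ Finset.range H, e (Phi θ c i y * h) * g (drs c y)) / H := by
        unfold DH
        rw [div_mul_eq_mul_div, Finset.sum_mul]
      rw [h2]
      apply Tendsto.div_const
      apply tendsto_finsetSum
      intro h _
      apply Tendsto.mul
      · exact (e_cont.tendsto _).comp (ph_diff θ c a hy i h)
      · exact (g.continuous.tendsto _).comp (dirs_lim a hy (sh h)))
    have e3 : (∫ y in dom k, ((‖DH (Phi θ c i y) H * g (drs c y)‖ : ℝ) : ℂ)) = ((J H : ℝ) : ℂ) := by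
      simp only [hJ]
      rw [← integral_complex_ofReal]
    rw [e3] at h
    have h2 := (Complex.continuous_re.tendsto _).comp h
    simp only [Complex.ofReal_re] at h2
    refine h2.congr (fun N => ?_)
    simp only [Function.comp]
    rw [← Complex.ofReal_sum, ← Complex.ofReal_natCast, ← Complex.ofReal_pow, ← Complex.ofReal_div, Complex.ofReal_re]
  have hfin : IsFiniteMeasure ((volume : Measure (Fin k → ℝ × ℝ)).restrict (dom k)) := ⟨by
    rw [Measure.restrict_apply_univ]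
    exact lt_of_le_of_lt (measure_mono dom_box) (lt_top_iff_ne_top.mpr box_fin)⟩
  have hJ0 : Tendsto J atTop (𝓝 0) := by
    have h1 : Tendsto J atTop (𝓝 (∫ y in dom k, (0:ℝ))) := by
      apply tendsto_integral_filter_of_dominated_convergence (fun _ => B)
      · refine Eventually.of_forall (fun H => ?_)
        have h1 : Measurable (fun y : Fin k → ℝ × ℝ => ‖DH (Phi θ c i y) H * g (drs c y)‖) := by
          apply Measurable.norm
          apply Measurable.mul
          · unfold DH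
            apply Measurable.div_const
            apply Finset.measurable_fun_sum
            intro h _
            exact e_cont.measurable.comp ((Phi_meas θ c i).mul_const _)
          · exact g.continuous.measurable.comp (drs_meas c)
        exact h1.aestronglyMeasurable
      · refine Eventually.of_forall (fun H => Eventually.of_forall (fun y => ?_))
        rw [norm_norm, norm_mul]
        calc ‖DH (Phi θ c i y) H‖ * ‖g (drs c y)‖ ≤ 1 * B :=
            mul_le_mul (norm_DH_le _ _) (hB _ (norm_drs c y)) (norm_nonneg _) zero_le_one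
          _ = B := one_mul _
      · exact integrable_const B
      · filter_upwards [ae_restrict_of_ae (ae_nores θ hc i h0)] with y hy
        have h1 := (DH_lim hy).mul_const (g (drs c y))
        rw [zero_mul] at h1
        have h2 := h1.norm
        rw [norm_zero] at h2
        exact h2
    rwa [integral_zero] at h1
  -- conclusion
  rw [Metric.tendsto_atTop]
  intro ε hε
  obtain ⟨H, hH1, hH⟩ : ∃ H : ℕ, 1 ≤ H ∧ J H < ε / 3 := by
    have := (hJ0.eventually (gt_mem_nhds (show (0:ℝ) < ε / 3 by positivity))).and (eventually_ge_atTop 1)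
    obtain ⟨H, h1, h2⟩ := this.exists
    exact ⟨H, h2, h1⟩
  have hH0 : (H:ℂ) ≠ 0 := by exact_mod_cast (by omega : H ≠ 0)
  have h1 : Tendsto (fun N : ℕ => (∑ h ∈ Finset.range H, (∑ z ∈ discs k N, f (z + sh h) - ∑ z ∈ discs k N, f z) / (N:ℂ) ^ k) / H) atTop (𝓝 0) := by
    have := (tendsto_finsetSum (Finset.range H) (fun h _ => shift_lim (sh h) hfB)).div_const (H:ℂ)
    simpa using this
  rw [Metric.tendsto_atTop] at h1
  obtain ⟨N1, h1⟩ := h1 (ε/3) (by positivity)
  have h2 := (hlim H).eventually (gt_mem_nhds (show J H < ε / 3 from hH))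
  rw [eventually_atTop] at h2
  obtain ⟨N2, h2⟩ := h2
  refine ⟨max N1 N2, fun N hN => ?_⟩
  have a1 := h1 N (le_trans (le_max_left _ _) hN)
  have a2 := h2 N (le_trans (le_max_right _ _) hN)
  rw [dist_zero_right] at a1 ⊢
  have e4 : (∑ z ∈ discs k N, f z) / (N:ℂ) ^ k = (∑ z ∈ discs k N, FH H z) / (N:ℂ) ^ k -
      (∑ h ∈ Finset.range H, (∑ z ∈ discs k N, f (z + sh h) - ∑ z ∈ discs k N, f z) / (N:ℂ) ^ k) / H := by
    have e5 : ∑ z ∈ discs k N, FH H z = (∑ h ∈ Finset.range H, ∑ z ∈ discs k N, f (z + sh h)) / H := by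
      simp only [hFH]
      rw [← Finset.sum_div, Finset.sum_comm]
    rw [e5, ← Finset.sum_div, Finset.sum_sub_distrib, Finset.sum_const, Finset.card_range, nsmul_eq_mul]
    field_simp
    ring
  rw [e4]
  have a3 : ‖(∑ z ∈ discs k N, FH H z) / (N:ℂ) ^ k‖ ≤ (∑ z ∈ discs k N, ‖FH H z‖) / (N:ℝ) ^ k := by
    rw [norm_div, norm_pow, Complex.norm_natCast]
    exact div_le_div_of_nonneg_right (norm_sum_le _ _) (by positivity)
  calc _ ≤ ‖(∑ z ∈ discs k N, FH H z) / (N:ℂ) ^ k‖ + ‖(∑ h ∈ Finset.range H, (∑ z ∈ discs k N, f (z + sh h) - ∑ z ∈ discs k N, f z) / (N:ℂ) ^ k) / H‖ :=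
        norm_sub_le _ _
    _ < ε := by linarith

end Pool.Agent.W2helper83.LF
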