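import Pool.Agent.W2helper83.LF.Av

/-! The errors at the linear forms are asymptotically independent of each other and of the directions. -/

open Filter Topology MeasureTheory
open Pool.Agent.H383
open Pool.Agent.H383.AP
open Pool.Agent.H383.Gen (Bd U Ap)
open Pool.Agent.H383.Gauss Pool.Agent.H383.Circ
open Pool.Agent.H425R3.JL
open Pool.Agent.H469R2.NK
open Pool.Agent.W24.CP
open Pool.Agent.W24.CP.SU (SI SI_ne SI_Av SI_card)
open Pool.Agent.W2helper83.GZ

namespace Pool.Agent.W2helper83.LF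

variable {k m : ℕ}

/-- trigonometric polynomials as finite sums -/
lemma SL_expand {t : ℕ → ℂ} (ht : t ∈ SL.TS) : ∃ b : ℝ →₀ ℂ, ∀ n, t n = ∑ θ ∈ b.support, b θ * SL.chS θ n := by
  unfold SL.TS at ht
  rw [Finsupp.mem_span_range_iff_exists_finsupp] at ht
  obtain ⟨b, hb⟩ := ht
  refine ⟨b, fun n => ?_⟩
  rw [← hb, Finsupp.sum, Finset.sum_apply]
  rfl

lemma e_sumK {κ : Type*} (s : Finset κ) (x : κ → ℝ) : e (∑ i ∈ s, x i) = ∏ i ∈ s, e (x i) := by
  classical
  induction s using Finset.induction_on with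
  | empty => simp [e]
  | insert i s hi ih => rw [Finset.sum_insert hi, Finset.prod_insert hi, e_add, ih]

lemma cav_sumK {κ : Type*} (S : Finset ℕ) (T : Finset κ) (b : κ → ℂ) (g : κ → ℕ → ℂ) :
    cav S (fun n => ∑ x ∈ T, b x * g x n) = ∑ x ∈ T, b x * cav S (g x) := by
  unfold cav
  rw [Finset.sum_comm, Finset.sum_div]
  apply Finset.sum_congr rfl
  intro x _
  rw [← Finset.mul_sum, mul_div_assoc]

/-- the averages of products of radial trigonometric polynomials times a function of the directions -/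
theorem prod_TS {c : Fin m → Fin k → ℤ} (hc : Indep c) (a : Fin m → ℤ × ℤ) {t : Fin m → ℕ → ℂ} (ht : ∀ p, t p ∈ SL.TS) :
    ∃ L : Fin m → ℂ, (∀ p, Tendsto (fun j => cav (SI j) (t p)) atTop (𝓝 (L p))) ∧ ∀ g : C(Fin m → ℂ, ℂ),
      Tendsto (fun j => cav (SK k j) (fun n => g (dirs c a (tz k n)) * ∏ p, t p (nm (lin (c p) (a p) (tz k n))))) atTop
        (𝓝 (sg c g * ∏ p, L p)) := by
  choose b hb using fun p => SL_expand (ht p)
  refine ⟨fun p => ∑ θ ∈ (b p).support, b p θ * SL.mcS θ, fun p => ?_, fun g => ?_⟩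
  · have e1 : ∀ j, cav (SI j) (t p) = ∑ θ ∈ (b p).support, b p θ * cav (SI j) (SL.chS θ) := by
      intro j
      rw [← cav_sumK]
      congr 1; funext n
      exact hb p n
    simp only [e1]
    apply tendsto_finsetSum
    intro θ _
    exact (SI_Av θ).const_mul _
  · have e1 : ∀ n, g (dirs c a (tz k n)) * ∏ p, t p (nm (lin (c p) (a p) (tz k n))) =
        ∑ φ ∈ Fintype.piFinset (fun p => (b p).support), (∏ p, b p (φ p)) * chL c a (φ, g) n := by
      intro n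
      have e2 : ∀ p, t p (nm (lin (c p) (a p) (tz k n))) =
          ∑ θ ∈ (b p).support, b p θ * SL.chS θ (nm (lin (c p) (a p) (tz k n))) := fun p => hb p _
      simp only [e2]
      rw [Finset.prod_univ_sum, Finset.mul_sum]
      apply Finset.sum_congr rfl
      intro φ _
      rw [Finset.prod_mul_distrib]
      have e3 : ∏ p, SL.chS (φ p) (nm (lin (c p) (a p) (tz k n))) = e (ph φ c a (tz k n)) := by
        unfold SL.chS ph
        rw [e_sumK]
      rw [e3]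
      unfold chL
      ring
    have e2 : ∀ j, cav (SK k j) (fun n => g (dirs c a (tz k n)) * ∏ p, t p (nm (lin (c p) (a p) (tz k n)))) =
        ∑ φ ∈ Fintype.piFinset (fun p => (b p).support), (∏ p, b p (φ p)) * cav (SK k j) (chL c a (φ, g)) := by
      intro j
      rw [← cav_sumK]
      congr 1; funext n
      exact e1 n
    simp only [e2]
    have e3 : sg c g * ∏ p, ∑ θ ∈ (b p).support, b p θ * SL.mcS θ =
        ∑ φ ∈ Fintype.piFinset (fun p => (b p).support), (∏ p, b p (φ p)) * mcL c (φ, g) := by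
      rw [Finset.prod_univ_sum, Finset.mul_sum]
      apply Finset.sum_congr rfl
      intro φ _
      rw [Finset.prod_mul_distrib]
      have e4 : mcL c (φ, g) = sg c g * ∏ p, SL.mcS (φ p) := by
        unfold mcL SL.mcS
        split_ifs with h
        · have : ∀ p, φ p = 0 := fun p => congrFun h p
          simp [this]
        · have : ∃ p, φ p ≠ 0 := by
            by_contra hcon
            push Not at hcon
            exact h (funext hcon)
          obtain ⟨p, hp⟩ := this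
          rw [Finset.prod_eq_zero (Finset.mem_univ p) (by rw [if_neg hp]), mul_zero]
      rw [e4]
      ring
    rw [e3]
    apply tendsto_finsetSum
    intro φ _
    exact (SK_ch hc a (φ, g)).const_mul _

/-- differences of products -/
lemma prod_diff {κ : Type*} (s : Finset κ) (x y : κ → ℂ) (hx : ∀ i, ‖x i‖ ≤ 2) (hy : ∀ i, ‖y i‖ ≤ 2) :
    ‖∏ i ∈ s, x i - ∏ i ∈ s, y i‖ ≤ 2 ^ s.card * ∑ i ∈ s, ‖x i - y i‖ := by
  classical
  induction s using Finset.induction_on with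
  | empty => simp
  | insert i s hi ih =>
    rw [Finset.prod_insert hi, Finset.prod_insert hi, Finset.sum_insert hi, Finset.card_insert_of_notMem hi]
    have e1 : x i * ∏ i ∈ s, x i - y i * ∏ i ∈ s, y i =
        x i * (∏ i ∈ s, x i - ∏ i ∈ s, y i) + (x i - y i) * ∏ i ∈ s, y i := by ring
    rw [e1]
    have h1 : ‖∏ i ∈ s, y i‖ ≤ 2 ^ s.card := by
      rw [norm_prod]
      calc ∏ i ∈ s, ‖y i‖ ≤ ∏ _i ∈ s, (2:ℝ) := Finset.prod_le_prod (fun _ _ => norm_nonneg _) (fun i _ => hy i)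
        _ = 2 ^ s.card := by rw [Finset.prod_const]
    have h2 : ‖x i * (∏ i ∈ s, x i - ∏ i ∈ s, y i)‖ ≤ 2 * (2 ^ s.card * ∑ i ∈ s, ‖x i - y i‖) := by
      rw [norm_mul]
      exact mul_le_mul (hx i) ih (norm_nonneg _) (by norm_num)
    have h3 : ‖(x i - y i) * ∏ i ∈ s, y i‖ ≤ ‖x i - y i‖ * 2 ^ s.card := by
      rw [norm_mul]
      exact mul_le_mul_of_nonneg_left h1 (norm_nonneg _)
    refine (norm_add_le _ _).trans ((add_le_add h2 h3).trans ?_)
    have h4 : 0 ≤ ‖x i - y i‖ * 2 ^ s.card := by positivity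
    rw [pow_succ]
    nlinarith

/-- the exponential of the error -/
noncomputable def xE (γ x : ℝ) : ℂ := Complex.exp (((γ * x : ℝ) : ℂ) * Complex.I)

lemma xE_eq (γ x : ℝ) : xE γ x = ((Real.cos (γ * x) : ℝ) : ℂ) + ((Real.sin (γ * x) : ℝ) : ℂ) * Complex.I := by
  unfold xE
  rw [Complex.exp_mul_I, Complex.ofReal_cos, Complex.ofReal_sin]

lemma norm_xE (γ x : ℝ) : ‖xE γ x‖ = 1 := Complex.norm_exp_ofReal_mul_I _

lemma fav_lin (c : Fin k → ℤ) (hc : c ≠ 0) (a : ℤ × ℤ) {η : ℝ} (hη : 0 < η) : ∃ M0 : ℕ, ∀ M : ℕ, M0 ≤ M → ∃ j0 : ℕ, ∀ j : ℕ, j0 ≤ j →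
      fav (SK k j) (fun n => (En √(nm (lin c a (tz k n)) : ℝ) - UG √(nm (lin c a (tz k n)) : ℝ) M)^2) ≤ η := by
  obtain ⟨M0, h⟩ := lin_ms hc a hη
  refine ⟨M0, fun M hM => ?_⟩
  obtain ⟨N0, h1⟩ := h M hM
  refine ⟨N0, fun j hj => ?_⟩
  rw [fav_SK (fun z => (En √(nm (lin c a z) : ℝ) - UG √(nm (lin c a z) : ℝ) M)^2), div_le_iff₀ (cardK_pos j)]
  exact h1 (j + 1) (by omega)

/-- approximation of the exponential of the error by trigonometric polynomials -/
lemma exp_approx {c : Fin k → ℤ} (hc : c ≠ 0) (a : ℤ × ℤ) (γ : ℝ) {ε : ℝ} (hε : 0 < ε) (hε1 : ε ≤ 1) :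
    ∃ t : ℕ → ℂ, t ∈ SL.TS ∧ (∀ n, ‖t n‖ ≤ 2) ∧ ∃ j0 : ℕ, ∀ j, j0 ≤ j →
      fav (SI j) (fun n => ‖xE γ (En √(n:ℝ)) - t n‖) ≤ ε ∧
      fav (SK k j) (fun n => ‖xE γ (En √(nm (lin c a (tz k n)) : ℝ)) - t (nm (lin c a (tz k n)))‖) ≤ ε := by
  set δ : ℝ := ε / (4 * (|γ| + 1)) with hδ
  have hγ : 0 ≤ |γ| := abs_nonneg γ
  have hδ0 : 0 < δ := by positivity
  have hδ1 : 2 * |γ| * δ ≤ ε / 2 := by
    rw [hδ, mul_div_assoc', div_le_div_iff₀ (by positivity) (by norm_num)]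
    nlinarith
  obtain ⟨M1, hM1⟩ := int_ms (η := δ^2) (by positivity)
  obtain ⟨M2, hM2⟩ := fav_lin c hc a (η := δ^2) (by positivity)
  set M := max M1 M2 with hM
  obtain ⟨j1, hj1⟩ := hM1 M (le_max_left _ _)
  obtain ⟨j2, hj2⟩ := hM2 M (le_max_right _ _)
  obtain ⟨t1, ht1, htn1⟩ := SL.weier (ι := Fin 1) (u := fun n _ => UG √(n:ℝ) M) (fun _ => UG_TS M)
    (f := fun x => Real.cos (γ * x 0)) (by fun_prop) (η := ε/4) (by positivity)
  obtain ⟨t2, ht2, htn2⟩ := SL.weier (ι := Fin 1) (u := fun n _ => UG √(n:ℝ) M) (fun _ => UG_TS M)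
    (f := fun x => Real.sin (γ * x 0)) (by fun_prop) (η := ε/4) (by positivity)
  have hU : ∀ n : ℕ, ‖xE γ (UG √(n:ℝ) M) - (t1 n + Complex.I * t2 n)‖ ≤ ε / 2 := by
    intro n
    have e1 : xE γ (UG √(n:ℝ) M) - (t1 n + Complex.I * t2 n) =
        (((Real.cos (γ * UG √(n:ℝ) M) : ℝ) : ℂ) - t1 n) + Complex.I * (((Real.sin (γ * UG √(n:ℝ) M) : ℝ) : ℂ) - t2 n) := by
      rw [xE_eq]; ring
    rw [e1]
    refine (norm_add_le _ _).trans ?_
    rw [norm_mul, Complex.norm_I, one_mul]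
    have := htn1 n
    have := htn2 n
    linarith
  refine ⟨t1 + Complex.I • t2, SL.TS.add_mem ht1 (SL.TS.smul_mem _ ht2), fun n => ?_, max j1 j2, fun j hj => ?_⟩
  · have h1 := hU n
    have e1 : (t1 + Complex.I • t2) n = xE γ (UG √(n:ℝ) M) - (xE γ (UG √(n:ℝ) M) - (t1 n + Complex.I * t2 n)) := by
      simp only [Pi.add_apply, Pi.smul_apply, smul_eq_mul]; ring
    rw [e1]
    refine (norm_sub_le _ _).trans ?_
    rw [norm_xE]
    linarith
  have k1 := fav_abs_le (SI_ne j) _ hδ0 (hj1 j ((le_max_left _ _).trans hj))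
  have k2 := fav_abs_le (SK_ne j) _ hδ0 (hj2 j ((le_max_right _ _).trans hj))
  have key : ∀ n : ℕ, ‖xE γ (En √(n:ℝ)) - (t1 + Complex.I • t2) n‖ ≤ (2 * |γ|) * |En √(n:ℝ) - UG √(n:ℝ) M| + ε/2 := by
    intro n
    have e1 : xE γ (En √(n:ℝ)) - (t1 + Complex.I • t2) n = (xE γ (En √(n:ℝ)) - xE γ (UG √(n:ℝ) M)) +
        (xE γ (UG √(n:ℝ) M) - (t1 n + Complex.I * t2 n)) := by
      simp only [Pi.add_apply, Pi.smul_apply, smul_eq_mul]; ring
    rw [e1]
    refine (norm_add_le _ _).trans (add_le_add ?_ (hU n))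
    rw [xE_eq, xE_eq]
    have e2 : ((Real.cos (γ * En √(n:ℝ)) : ℝ) : ℂ) + ((Real.sin (γ * En √(n:ℝ)) : ℝ) : ℂ) * Complex.I -
        (((Real.cos (γ * UG √(n:ℝ) M) : ℝ) : ℂ) + ((Real.sin (γ * UG √(n:ℝ) M) : ℝ) : ℂ) * Complex.I) =
        ((Real.cos (γ * En √(n:ℝ)) - Real.cos (γ * UG √(n:ℝ) M) : ℝ) : ℂ) +
        ((Real.sin (γ * En √(n:ℝ)) - Real.sin (γ * UG √(n:ℝ) M) : ℝ) : ℂ) * Complex.I := by
      push_cast; ring
    rw [e2]
    refine (norm_add_le _ _).trans ?_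
    rw [norm_mul, Complex.norm_I, mul_one, Complex.norm_real, Complex.norm_real, Real.norm_eq_abs, Real.norm_eq_abs]
    have h1 := Real.abs_cos_sub_cos_le (γ * En √(n:ℝ)) (γ * UG √(n:ℝ) M)
    have h2 := Real.abs_sin_sub_sin_le (γ * En √(n:ℝ)) (γ * UG √(n:ℝ) M)
    rw [← mul_sub, abs_mul] at h1 h2
    linarith
  constructor
  · refine (fav_mono key).trans ?_
    rw [fav_add, fav_mul, fav_const (SI_ne j)]
    have := mul_le_mul_of_nonneg_left k1 (by positivity : 0 ≤ 2 * |γ|)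
    linarith
  · refine (fav_mono (fun n => key (nm (lin c a (tz k n))))).trans ?_
    rw [fav_add, fav_mul, fav_const (SK_ne j)]
    have := mul_le_mul_of_nonneg_left k2 (by positivity : 0 ≤ 2 * |γ|)
    linarith

lemma cosLip (γ : ℝ) : Continuous (fun x : ℝ => Real.cos (γ * x)) := by fun_prop

lemma xE_int (ν : Measure ℝ) [IsProbabilityMeasure ν] (γ : ℝ) :
    ∫ x, xE γ x ∂ν = ((∫ x, Real.cos (γ * x) ∂ν : ℝ) : ℂ) + Complex.I * ((∫ x, Real.sin (γ * x) ∂ν : ℝ) : ℂ) := by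
  rw [← integral_complex_ofReal, ← integral_complex_ofReal, ← integral_const_mul, ← integral_add]
  · congr 1; funext x
    rw [xE_eq]; ring
  · apply Integrable.ofReal
    apply Integrable.of_bound (C := 1) (Real.continuous_cos.comp (continuous_const_mul γ)).aestronglyMeasurable
    exact Eventually.of_forall fun x => by rw [Real.norm_eq_abs]; exact Real.abs_cos_le_one _
  · apply Integrable.const_mul
    apply Integrable.ofReal
    apply Integrable.of_bound (C := 1) (Real.continuous_sin.comp (continuous_const_mul γ)).aestronglyMeasurable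
    exact Eventually.of_forall fun x => by rw [Real.norm_eq_abs]; exact Real.abs_sin_le_one _

lemma norm_xE_int (ν : Measure ℝ) [IsProbabilityMeasure ν] (γ : ℝ) : ‖∫ x, xE γ x ∂ν‖ ≤ 1 := by
  have := norm_integral_le_of_norm_le_const (μ := ν) (f := xE γ) (C := 1) (Eventually.of_forall fun x => (norm_xE γ x).le)
  simpa using this

/-- asymptotic independence -/
theorem prod_law {c : Fin m → Fin k → ℤ} (hc : Indep c) (a : Fin m → ℤ × ℤ) {ν : Measure ℝ} [IsProbabilityMeasure ν]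
    (hν : ∀ F : ℝ → ℝ, Continuous F → (∃ B, ∀ x, |F x| ≤ B) →
      Tendsto (fun j => fav (SI j) (fun n => F (En √(n:ℝ)))) atTop (𝓝 (∫ x, F x ∂ν))) (γ : Fin m → ℝ) (g : C(Fin m → ℂ, ℂ)) :
    Tendsto (fun j => cav (SK k j) (fun n => g (dirs c a (tz k n)) * ∏ p, xE (γ p) (En √(nm (lin (c p) (a p) (tz k n)) : ℝ)))) atTop
      (𝓝 (sg c g * ∏ p, ∫ x, xE (γ p) x ∂ν)) := by
  obtain ⟨B, hB0, hB⟩ := cmap_bddK g
  rw [Metric.tendsto_atTop]
  intro ε hε
  have hA : 0 ≤ ‖sg c g‖ := norm_nonneg _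
  set δ : ℝ := min 1 (ε / (4 * (B + ‖sg c g‖ + 1) * 2 ^ m * (m + 1))) with hδ
  have hδ0 : 0 < δ := by rw [hδ]; positivity
  have hδ1 : δ ≤ 1 := min_le_left _ _
  have hδ2 : (B + ‖sg c g‖ + 1) * (2 ^ m * ((m + 1) * δ)) ≤ ε / 4 := by
    have h1 : δ ≤ ε / (4 * (B + ‖sg c g‖ + 1) * 2 ^ m * (m + 1)) := min_le_right _ _
    rw [le_div_iff₀ (by positivity)] at h1
    linarith
  choose t ht htb j0 hj0 using fun p => exp_approx (hc.1 p) (a p) (γ p) hδ0 hδ1
  obtain ⟨L, hL1, hL2⟩ := prod_TS hc a ht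
  have hLn : ∀ p, ‖L p‖ ≤ 2 := by
    intro p
    refine le_of_tendsto (hL1 p).norm (Eventually.of_forall fun j => ?_)
    have h1 := norm_cav_sub_le (SI j) (t p) 0
    have h2 : cav (SI j) 0 = 0 := by simp [cav]
    rw [h2, sub_zero] at h1
    refine h1.trans ((fav_mono (h := fun _ => 2) (fun n => ?_)).trans (le_of_eq (fav_const (SI_ne j) 2)))
    simp only [Pi.zero_apply, sub_zero]
    exact htb p n
  -- comparison over the integers
  have c1 : ∀ p, ‖(∫ x, xE (γ p) x ∂ν) - L p‖ ≤ δ := by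
    intro p
    have t1 := hν (fun x => Real.cos (γ p * x)) (by fun_prop) ⟨1, fun x => Real.abs_cos_le_one _⟩
    have t2 := hν (fun x => Real.sin (γ p * x)) (by fun_prop) ⟨1, fun x => Real.abs_sin_le_one _⟩
    have t3 := ((Complex.continuous_ofReal.tendsto _).comp t1).add (((Complex.continuous_ofReal.tendsto _).comp t2).const_mul Complex.I)
    rw [← xE_int] at t3
    have t4 : Tendsto (fun j => cav (SI j) (fun n => xE (γ p) (En √(n:ℝ)))) atTop (𝓝 (∫ x, xE (γ p) x ∂ν)) := by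
      refine t3.congr (fun j => ?_)
      simp only [Function.comp]
      rw [← cav_ofReal, ← cav_ofReal, ← smul_eq_mul, ← cav_smul, ← cav_add]
      congr 1
      funext n
      simp only [Pi.add_apply, Pi.smul_apply, smul_eq_mul]
      rw [xE_eq]; ring
    refine le_of_tendsto (t4.sub (hL1 p)).norm ?_
    filter_upwards [eventually_ge_atTop (j0 p)] with j hj
    exact (norm_cav_sub_le _ _ _).trans (hj0 p j hj).1
  have hL3 := hL2 g
  rw [Metric.tendsto_atTop] at hL3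
  obtain ⟨j1, hj1⟩ := hL3 (ε/4) (by positivity)
  refine ⟨max (∑ p, j0 p) j1, fun j hj => ?_⟩
  have hjp : ∀ p, j0 p ≤ j := fun p => (Finset.single_le_sum (f := j0) (fun _ _ => Nat.zero_le _) (Finset.mem_univ p)).trans ((le_max_left _ _).trans hj)
  have a2 := hj1 j ((le_max_right _ _).trans hj)
  rw [dist_eq_norm] at a2 ⊢
  have a3 : ‖cav (SK k j) (fun n => g (dirs c a (tz k n)) * ∏ p, xE (γ p) (En √(nm (lin (c p) (a p) (tz k n)) : ℝ))) -
      cav (SK k j) (fun n => g (dirs c a (tz k n)) * ∏ p, t p (nm (lin (c p) (a p) (tz k n))))‖ ≤ B * (2 ^ m * (m * δ)) := by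
    refine (norm_cav_sub_le _ _ _).trans ?_
    have h1 : ∀ n, ‖g (dirs c a (tz k n)) * ∏ p, xE (γ p) (En √(nm (lin (c p) (a p) (tz k n)) : ℝ)) -
        g (dirs c a (tz k n)) * ∏ p, t p (nm (lin (c p) (a p) (tz k n)))‖ ≤
        (B * 2 ^ m) * ∑ p, ‖xE (γ p) (En √(nm (lin (c p) (a p) (tz k n)) : ℝ)) - t p (nm (lin (c p) (a p) (tz k n)))‖ := by
      intro n
      rw [← mul_sub, norm_mul]
      have h2 := prod_diff Finset.univ (fun p => xE (γ p) (En √(nm (lin (c p) (a p) (tz k n)) : ℝ)))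
        (fun p => t p (nm (lin (c p) (a p) (tz k n)))) (fun p => by rw [norm_xE]; norm_num) (fun p => htb p _)
      rw [Finset.card_univ, Fintype.card_fin] at h2
      calc _ ≤ B * (2 ^ m * ∑ p, ‖xE (γ p) (En √(nm (lin (c p) (a p) (tz k n)) : ℝ)) - t p (nm (lin (c p) (a p) (tz k n)))‖) :=
            mul_le_mul (hB _ (norm_dirs c a _)) h2 (norm_nonneg _) hB0
        _ = _ := by ring
    refine (fav_mono h1).trans ?_
    rw [fav_mul, SX.fav_sum]
    calc _ ≤ B * 2 ^ m * ∑ _p : Fin m, δ := by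
          apply mul_le_mul_of_nonneg_left _ (by positivity)
          exact Finset.sum_le_sum fun p _ => (hj0 p j (hjp p)).2
      _ = _ := by rw [Finset.sum_const, Finset.card_univ, Fintype.card_fin, nsmul_eq_mul]; ring
  have a4 : ‖sg c g * ∏ p, L p - sg c g * ∏ p, ∫ x, xE (γ p) x ∂ν‖ ≤ ‖sg c g‖ * (2 ^ m * (m * δ)) := by
    rw [← mul_sub, norm_mul]
    apply mul_le_mul_of_nonneg_left _ hA
    have h2 := prod_diff Finset.univ L (fun p => ∫ x, xE (γ p) x ∂ν) hLn (fun p => (norm_xE_int ν _).trans (by norm_num))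
    rw [Finset.card_univ, Fintype.card_fin] at h2
    refine h2.trans ?_
    apply mul_le_mul_of_nonneg_left _ (by positivity)
    calc _ ≤ ∑ _p : Fin m, δ := Finset.sum_le_sum fun p _ => by rw [norm_sub_rev]; exact c1 p
      _ = _ := by rw [Finset.sum_const, Finset.card_univ, Fintype.card_fin, nsmul_eq_mul]
  have hsum : B * (2 ^ m * (m * δ)) + ‖sg c g‖ * (2 ^ m * (m * δ)) ≤ ε/4 := by
    refine le_trans ?_ hδ2
    have h1 : (m:ℝ) * δ ≤ (m + 1) * δ := by nlinarith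
    have h2 : (2:ℝ) ^ m * (m * δ) ≤ 2 ^ m * ((m + 1) * δ) := mul_le_mul_of_nonneg_left h1 (by positivity)
    have h3 : 0 ≤ (2:ℝ) ^ m * ((m + 1) * δ) := by positivity
    nlinarith
  calc _ = ‖(cav (SK k j) (fun n => g (dirs c a (tz k n)) * ∏ p, xE (γ p) (En √(nm (lin (c p) (a p) (tz k n)) : ℝ))) -
      cav (SK k j) (fun n => g (dirs c a (tz k n)) * ∏ p, t p (nm (lin (c p) (a p) (tz k n))))) +
      (cav (SK k j) (fun n => g (dirs c a (tz k n)) * ∏ p, t p (nm (lin (c p) (a p) (tz k n)))) - sg c g * ∏ p, L p) +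
      (sg c g * ∏ p, L p - sg c g * ∏ p, ∫ x, xE (γ p) x ∂ν)‖ := by congr 1; ring
    _ ≤ B * (2 ^ m * (m * δ)) + ε/4 + ‖sg c g‖ * (2 ^ m * (m * δ)) :=
      (norm_add_le _ _).trans (add_le_add ((norm_add_le _ _).trans (add_le_add a3 a2.le)) a4)
    _ < ε := by linarith

end Pool.Agent.W2helper83.LF
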