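import Pool.Agent.W2helper83.LF.Lim

/-! The resonance sets of systems of linear forms are null. -/

open Filter Topology MeasureTheory
open Pool.Agent.H383.AP
open Pool.Agent.H425R3.JL
open Pool.Agent.H469R2.NK
open Pool.Agent.W2helper83.GZ

namespace Pool.Agent.W2helper83.LF

variable {k m : ℕ}

/-- a nonconstant analytic function takes each value on a null set -/
lemma ana_null {f : ℝ → ℝ} (hf : AnalyticOnNhd ℝ f Set.univ) {n : ℝ} (h : ∃ x, f x ≠ n) : volume {x | f x = n} = 0 := by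
  apply measure_null_of_locally_null
  intro x hx
  have hc : AnalyticAt ℝ (fun _ : ℝ => n) x := analyticAt_const
  rcases (hf x trivial).eventually_eq_or_eventually_ne hc with h1 | h1
  · exfalso
    obtain ⟨x0, h0⟩ := h
    have hc' : AnalyticOnNhd ℝ (fun _ : ℝ => n) Set.univ := fun _ _ => analyticAt_const
    exact h0 (hf.eqOn_of_preconnected_of_eventuallyEq hc' isPreconnected_univ (Set.mem_univ x) h1 (Set.mem_univ x0))
  · refine ⟨{x}, ?_, measure_singleton _⟩
    rw [eventually_nhdsWithin_iff] at h1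
    rw [mem_nhdsWithin_iff_eventually]
    filter_upwards [h1] with y hy hy2
    by_contra hne
    exact hy hne hy2

/-- the cosine of the angle -/
noncomputable def cs (v : ℝ × ℝ) : ℝ := v.1 / √(v.1 ^ 2 + v.2 ^ 2)

lemma dr_re (y : ℝ × ℝ) : (dr y).re = cs y := by
  unfold dr cs
  rw [Complex.div_ofReal_re]; simp

lemma cs_cont {x : ℝ × ℝ} (hx : x ≠ 0) : ContinuousAt cs x := by
  unfold cs
  apply ContinuousAt.div (by fun_prop) (by fun_prop)
  exact (Real.sqrt_pos.mpr (sq_pos_of hx)).ne'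

lemma cs_smul {t : ℝ} (ht : 0 < t) (x : ℝ × ℝ) : cs (t • x) = cs x := by
  unfold cs
  have e1 : (t • x).1 ^ 2 + (t • x).2 ^ 2 = t ^ 2 * (x.1 ^ 2 + x.2 ^ 2) := by
    simp only [Prod.smul_fst, Prod.smul_snd, smul_eq_mul]; ring
  rw [e1, Real.sqrt_mul (by positivity), Real.sqrt_sq ht.le]
  simp only [Prod.smul_fst, smul_eq_mul]
  rw [mul_div_mul_left _ _ ht.ne']

lemma cs_neg (x : ℝ × ℝ) : cs (-x) = - cs x := by
  unfold cs
  simp only [Prod.fst_neg, Prod.snd_neg, neg_sq]
  rw [neg_div]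

lemma cs_eq {x : ℝ × ℝ} (hx : 0 < x.1 ^ 2 + x.2 ^ 2) : cs x = x.1 * Real.exp (-(Real.log (x.1 ^ 2 + x.2 ^ 2) / 2)) := by
  unfold cs
  rw [div_eq_mul_inv]
  congr 1
  rw [Real.exp_neg, Real.sqrt_eq_rpow, Real.rpow_def_of_pos hx]
  congr 2
  ring

/-- the frequency function -/
noncomputable def Phi (θ : Fin m → ℝ) (c : Fin m → Fin k → ℤ) (i : Fin k) (y : Fin k → ℝ × ℝ) : ℝ :=
  ∑ p, θ p * c p i * cs (linR (c p) y)

lemma cs_far (x v : ℝ × ℝ) (hv : v ≠ 0) : Tendsto (fun N : ℕ => cs (x + (N:ℝ) • v)) atTop (𝓝 (cs v)) := by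
  have h1 : Tendsto (fun N : ℕ => (1 / (N:ℝ)) • x + v) atTop (𝓝 ((0:ℝ) • x + v)) :=
    ((tendsto_one_div_atTop_nhds_zero_nat (𝕜 := ℝ)).smul_const x).add_const v
  rw [zero_smul, zero_add] at h1
  have h2 := (cs_cont hv).tendsto.comp h1
  refine h2.congr' ?_
  filter_upwards [eventually_ge_atTop 1] with N hN
  have hN0 : (0:ℝ) < N := by exact_mod_cast hN
  simp only [Function.comp]
  rw [← cs_smul hN0, smul_add, smul_smul, mul_one_div_cancel hN0.ne', one_smul]

lemma cs_far' (x v : ℝ × ℝ) (hv : v ≠ 0) : Tendsto (fun N : ℕ => cs (x + (-(N:ℝ)) • v)) atTop (𝓝 (-cs v)) := by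
  have h1 := cs_far x (-v) (neg_ne_zero.mpr hv)
  rw [cs_neg] at h1
  refine h1.congr (fun N => ?_)
  rw [neg_smul, smul_neg]

/-- along a generic line each value is taken on a null set -/
lemma line_null (θ : Fin m → ℝ) (c : Fin m → Fin k → ℤ) (i : Fin k) {y v : Fin k → ℝ × ℝ}
    (hg : ∀ p, (linR (c p) y).1 * (linR (c p) v).2 - (linR (c p) y).2 * (linR (c p) v).1 ≠ 0)
    (hv : Phi θ c i v ≠ 0) (n : ℝ) : volume {s : ℝ | Phi θ c i (y + s • v) = n} = 0 := by
  have hpos : ∀ p (s : ℝ), 0 < (linR (c p) (y + s • v)).1 ^ 2 + (linR (c p) (y + s • v)).2 ^ 2 := by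
    intro p s
    apply sq_pos_of
    intro h0
    apply hg p
    rw [linR_add, linR_smul] at h0
    have h1 := congrArg Prod.fst h0
    have h2 := congrArg Prod.snd h0
    simp only [Prod.fst_add, Prod.snd_add, Prod.smul_fst, Prod.smul_snd, smul_eq_mul, Prod.fst_zero, Prod.snd_zero] at h1 h2
    linear_combination (linR (c p) v).2 * h1 - (linR (c p) v).1 * h2
  have hvne : ∀ p, linR (c p) v ≠ 0 := by
    intro p h0
    apply hg p
    rw [h0]; simp
  apply ana_null
  · intro s _
    have e1 : (fun s : ℝ => Phi θ c i (y + s • v)) = fun s : ℝ => ∑ p, θ p * c p i *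
        (((linR (c p) y).1 + s * (linR (c p) v).1) * Real.exp (-(Real.log (((linR (c p) y).1 + s * (linR (c p) v).1) ^ 2 +
          ((linR (c p) y).2 + s * (linR (c p) v).2) ^ 2) / 2))) := by
      funext s
      unfold Phi
      apply Finset.sum_congr rfl
      intro p _
      rw [cs_eq (hpos p s), linR_add, linR_smul]
      rfl
    rw [e1]
    apply Finset.analyticAt_fun_sum
    intro p _
    have hl : ∀ a b : ℝ, AnalyticAt ℝ (fun s : ℝ => a + s * b) s := fun a b => by fun_prop
    apply AnalyticAt.mul analyticAt_const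
    apply AnalyticAt.mul (hl _ _)
    apply AnalyticAt.rexp
    apply AnalyticAt.neg
    apply AnalyticAt.div _ analyticAt_const (by norm_num)
    apply AnalyticAt.log
    · exact ((hl _ _).pow 2).add ((hl _ _).pow 2)
    · have := hpos p s
      rw [linR_add, linR_smul] at this
      exact this
  · by_contra hcon
    push Not at hcon
    have l1 : Tendsto (fun N : ℕ => Phi θ c i (y + (N:ℝ) • v)) atTop (𝓝 (Phi θ c i v)) := by
      unfold Phi
      apply tendsto_finsetSum
      intro p _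
      apply Tendsto.const_mul
      have := cs_far (linR (c p) y) (linR (c p) v) (hvne p)
      refine this.congr (fun N => ?_)
      rw [linR_add, linR_smul]
    have l2 : Tendsto (fun N : ℕ => Phi θ c i (y + (-(N:ℝ)) • v)) atTop (𝓝 (- Phi θ c i v)) := by
      unfold Phi
      rw [← Finset.sum_neg_distrib]
      apply tendsto_finsetSum
      intro p _
      rw [← mul_neg]
      apply Tendsto.const_mul
      have := cs_far' (linR (c p) y) (linR (c p) v) (hvne p)
      refine this.congr (fun N => ?_)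
      rw [linR_add, linR_smul]
    simp only [hcon] at l1 l2
    have e1 := tendsto_nhds_unique l1 tendsto_const_nhds
    have e2 := tendsto_nhds_unique l2 tendsto_const_nhds
    apply hv
    linarith

/-- pairwise independence of the linear forms -/
def Indep (c : Fin m → Fin k → ℤ) : Prop :=
  (∀ p, c p ≠ 0) ∧ ∀ p q, p ≠ q → ∀ a b : ℤ, a • c p = b • c q → a = 0 ∧ b = 0

lemma linR_single (c : Fin k → ℤ) (l : Fin k) (x : ℝ × ℝ) : linR c (Pi.single l x) = (c l : ℝ) • x := by
  unfold linR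
  rw [Finset.sum_eq_single l]
  · rw [Pi.single_eq_same]
  · intro j _ hj; rw [Pi.single_eq_of_ne hj, smul_zero]
  · intro h; exact absurd (Finset.mem_univ l) h

lemma exists_star {c : Fin m → Fin k → ℤ} (hc : Indep c) (p0 : Fin m) :
    ∃ v : Fin k → ℝ × ℝ, linR (c p0) v = 0 ∧ ∀ p, p ≠ p0 → linR (c p) v ≠ 0 := by
  classical
  set K : Submodule ℝ (Fin k → ℝ × ℝ) := LinearMap.ker (linM (c p0)) with hK
  let P : {p : Fin m // p ≠ p0} → Submodule ℝ K := fun p => (LinearMap.ker (linM (c p))).comap K.subtype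
  by_cases hun : ⋃ p, (P p : Set K) = Set.univ
  · exfalso
    obtain ⟨p, hp⟩ := Subspace.exists_eq_top_of_iUnion_eq_univ (k := ℝ) hun
    obtain ⟨i, hi⟩ := Function.ne_iff.mp (hc.1 p0)
    rw [Pi.zero_apply] at hi
    set u : Fin k → Fin k → ℝ × ℝ := fun l => Pi.single l ((1:ℝ), (0:ℝ)) with hu
    have hs : ∀ (q : Fin m) (l : Fin k), linR (c q) (u l) = ((c q l : ℝ), (0:ℝ)) := by
      intro q l
      rw [hu, linR_single]
      simp
    have key : ∀ j, (c p0 i : ℝ) • u j - (c p0 j : ℝ) • u i ∈ K := by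
      intro j
      rw [hK, LinearMap.mem_ker, map_sub, map_smul, map_smul]
      change (c p0 i : ℝ) • linR (c p0) (u j) - (c p0 j : ℝ) • linR (c p0) (u i) = 0
      rw [hs, hs]
      apply Prod.ext
      · simp; ring
      · simp
    have hK' : ∀ x ∈ K, linR (c p) x = 0 := by
      intro x hx
      have h1 : (⟨x, hx⟩ : K) ∈ P p := by rw [hp]; trivial
      exact h1
    have hj : ∀ j, c p0 i * c p j = c p0 j * c p i := by
      intro j
      have h4 := hK' _ (key j)
      rw [sub_eq_add_neg, linR_add, ← neg_smul, linR_smul, linR_smul, hs, hs] at h4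
      have h6 := congrArg Prod.fst h4
      simp only [Prod.smul_mk, smul_eq_mul, Prod.fst_add, Prod.fst_zero] at h6
      have h7 : (c p0 i : ℝ) * c p j = c p0 j * c p i := by linarith
      exact_mod_cast h7
    have h8 := hc.2 p p0 p.2 (c p0 i) (c p i) (by
      funext j
      simp only [Pi.smul_apply, smul_eq_mul]
      rw [hj j]; ring)
    exact hi h8.1
  · rw [Set.eq_univ_iff_forall] at hun
    push Not at hun
    obtain ⟨x, hx⟩ := hun
    rw [Set.mem_iUnion] at hx
    push Not at hx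
    refine ⟨x, x.2, fun p hp h => ?_⟩
    exact hx ⟨p, hp⟩ h

/-- there is a generic direction -/
lemma exists_dir (θ : Fin m → ℝ) {c : Fin m → Fin k → ℤ} (hc : Indep c) (i : Fin k) {p0 : Fin m} (h0 : θ p0 * c p0 i ≠ 0) :
    ∃ v : Fin k → ℝ × ℝ, (∀ p, linR (c p) v ≠ 0) ∧ Phi θ c i v ≠ 0 := by
  classical
  obtain ⟨x, hx0, hx⟩ := exists_star hc p0
  have hci : (c p0 i : ℝ) ≠ 0 := fun h => h0 (by rw [h, mul_zero])
  set w : Fin k → ℝ × ℝ := Pi.single i ((1:ℝ), (0:ℝ)) with hw
  have hw0 : linR (c p0) w = ((c p0 i : ℝ), (0:ℝ)) := by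
    rw [hw, linR_single]; simp
  have hwne : linR (c p0) w ≠ 0 := by
    rw [hw0]
    intro h
    exact hci (congrArg Prod.fst h)
  set σ : ℝ := cs (linR (c p0) w) with hσ
  have hσ0 : σ ≠ 0 := by
    rw [hσ, hw0]
    unfold cs
    apply div_ne_zero hci
    have : (0:ℝ) < (c p0 i : ℝ) ^ 2 + (0:ℝ) ^ 2 := by positivity
    exact (Real.sqrt_pos.mpr this).ne'
  have hA : θ p0 * c p0 i * σ ≠ 0 := mul_ne_zero h0 hσ0
  set R : ℝ := ∑ p ∈ Finset.univ.erase p0, θ p * c p i * cs (linR (c p) x) with hR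
  -- the limit for both signs
  have hlim : ∀ s : ℝ, s = 1 ∨ s = -1 →
      Tendsto (fun N : ℕ => Phi θ c i (x + (1 / (N:ℝ)) • (s • w))) atTop (𝓝 (θ p0 * c p0 i * (s * σ) + R)) := by
    intro s hs
    have e1 : ∀ N : ℕ, Phi θ c i (x + (1 / (N:ℝ)) • (s • w)) = θ p0 * c p0 i * cs (linR (c p0) (x + (1 / (N:ℝ)) • (s • w))) +
        ∑ p ∈ Finset.univ.erase p0, θ p * c p i * cs (linR (c p) (x + (1 / (N:ℝ)) • (s • w))) := by
      intro N
      unfold Phi
      rw [← Finset.add_sum_erase _ _ (Finset.mem_univ p0)]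
    simp only [e1]
    apply Tendsto.add
    · apply Tendsto.const_mul
      apply tendsto_const_nhds.congr'
      filter_upwards [eventually_ge_atTop 1] with N hN
      have hN0 : (0:ℝ) < N := by exact_mod_cast hN
      rw [linR_add, hx0, zero_add, linR_smul, cs_smul (by positivity), linR_smul]
      rcases hs with rfl | rfl
      · rw [one_smul, one_mul]
      · rw [neg_smul, one_smul, cs_neg, neg_mul, one_mul]
    · rw [hR]
      apply tendsto_finsetSum
      intro p hp
      apply Tendsto.const_mul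
      have hp' := hx p (Finset.ne_of_mem_erase hp)
      have h1 : Tendsto (fun N : ℕ => linR (c p) x + (1 / (N:ℝ)) • linR (c p) (s • w)) atTop (𝓝 (linR (c p) x + (0:ℝ) • linR (c p) (s • w))) :=
        ((tendsto_one_div_atTop_nhds_zero_nat (𝕜 := ℝ)).smul_const _).const_add _
      rw [zero_smul, add_zero] at h1
      have h2 := (cs_cont hp').tendsto.comp h1
      refine h2.congr (fun N => ?_)
      simp only [Function.comp]
      rw [linR_add, linR_smul (c p) (1 / (N:ℝ))]
  have hne : ∀ s : ℝ, s = 1 ∨ s = -1 → ∀ᶠ N : ℕ in atTop, ∀ p, linR (c p) (x + (1 / (N:ℝ)) • (s • w)) ≠ 0 := by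
    intro s hs
    rw [eventually_all]
    intro p
    by_cases hp : p = p0
    · subst hp
      filter_upwards [eventually_ge_atTop 1] with N hN
      have hN0 : (0:ℝ) < N := by exact_mod_cast hN
      rw [linR_add, hx0, zero_add, linR_smul, linR_smul]
      apply smul_ne_zero (by positivity)
      apply smul_ne_zero _ hwne
      rcases hs with rfl | rfl <;> norm_num
    · have hp' := hx p hp
      have h1 : Tendsto (fun N : ℕ => linR (c p) x + (1 / (N:ℝ)) • linR (c p) (s • w)) atTop (𝓝 (linR (c p) x + (0:ℝ) • linR (c p) (s • w))) :=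
        ((tendsto_one_div_atTop_nhds_zero_nat (𝕜 := ℝ)).smul_const _).const_add _
      rw [zero_smul, add_zero] at h1
      have h2 := h1.eventually_ne hp'
      filter_upwards [h2] with N h3
      rw [linR_add, linR_smul (c p) (1 / (N:ℝ))]
      exact h3
  by_cases hcase : θ p0 * c p0 i * (1 * σ) + R ≠ 0
  · have h1 := ((hlim 1 (Or.inl rfl)).eventually_ne hcase).and (hne 1 (Or.inl rfl))
    obtain ⟨N, h2, h3⟩ := h1.exists
    exact ⟨_, h3, h2⟩
  · push Not at hcase
    have hcase' : θ p0 * c p0 i * (-1 * σ) + R ≠ 0 := by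
      intro h
      apply hA
      linarith
    have h1 := ((hlim (-1) (Or.inr rfl)).eventually_ne hcase').and (hne (-1) (Or.inr rfl))
    obtain ⟨N, h2, h3⟩ := h1.exists
    exact ⟨_, h3, h2⟩

lemma cs_meas : Measurable cs := by
  unfold cs; fun_prop

lemma Phi_meas (θ : Fin m → ℝ) (c : Fin m → Fin k → ℤ) (i : Fin k) : Measurable (Phi θ c i) := by
  unfold Phi
  apply Finset.measurable_fun_sum
  intro p _
  exact (cs_meas.comp (linR_cont (c p)).measurable).const_mul _

/-- a nonzero linear functional vanishes almost nowhere -/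
lemma ae_cross {c : Fin m → Fin k → ℤ} (hc : Indep c) {v : Fin k → ℝ × ℝ} (hv : ∀ p, linR (c p) v ≠ 0) :
    ∀ᵐ y : Fin k → ℝ × ℝ, ∀ p, (linR (c p) y).1 * (linR (c p) v).2 - (linR (c p) y).2 * (linR (c p) v).1 ≠ 0 := by
  rw [ae_all_iff]
  intro p
  set ψ : (Fin k → ℝ × ℝ) →ₗ[ℝ] ℝ :=
    { toFun := fun y => (linR (c p) y).1 * (linR (c p) v).2 - (linR (c p) y).2 * (linR (c p) v).1
      map_add' := by
        intro x y
        rw [linR_add]
        simp only [Prod.fst_add, Prod.snd_add]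
        ring
      map_smul' := by
        intro t x
        rw [linR_smul]
        simp only [Prod.smul_fst, Prod.smul_snd, smul_eq_mul, RingHom.id_apply]
        ring } with hψ
  have hne : LinearMap.ker ψ ≠ ⊤ := by
    intro h
    obtain ⟨i, hi⟩ := Function.ne_iff.mp (hc.1 p)
    have hi' : (c p i : ℝ) ≠ 0 := by exact_mod_cast hi
    have h1 : (Pi.single i ((linR (c p) v).2, -(linR (c p) v).1) : Fin k → ℝ × ℝ) ∈ LinearMap.ker ψ := by rw [h]; trivial
    rw [LinearMap.mem_ker, hψ] at h1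
    simp only [LinearMap.coe_mk, AddHom.coe_mk, linR_single, Prod.smul_fst, Prod.smul_snd, smul_eq_mul] at h1
    have h2 := sq_pos_of (hv p)
    have h3 : (c p i : ℝ) * ((linR (c p) v).1 ^ 2 + (linR (c p) v).2 ^ 2) = 0 := by linarith
    rcases mul_eq_zero.mp h3 with h4 | h4
    · exact hi' h4
    · linarith
  have h2 := Measure.addHaar_submodule (volume : Measure (Fin k → ℝ × ℝ)) _ hne
  rw [ae_iff]
  simp only [not_not]
  exact h2

/-- there is almost surely no resonance -/
theorem ae_nores (θ : Fin m → ℝ) {c : Fin m → Fin k → ℤ} (hc : Indep c) (i : Fin k) {p0 : Fin m} (h0 : θ p0 * c p0 i ≠ 0) :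
    ∀ᵐ y : Fin k → ℝ × ℝ, e (Phi θ c i y) ≠ 1 := by
  obtain ⟨v, hv, hP⟩ := exists_dir θ hc i h0
  have hms : MeasurableSet {y : Fin k → ℝ × ℝ | ∀ n : ℤ, Phi θ c i y ≠ n} := by
    have : {y : Fin k → ℝ × ℝ | ∀ n : ℤ, Phi θ c i y ≠ n} = ⋂ n : ℤ, {y | Phi θ c i y ≠ n} := by
      ext y; simp
    rw [this]
    exact MeasurableSet.iInter (fun n => (measurableSet_eq_fun (Phi_meas θ c i) measurable_const).compl)
  have key : ∀ᵐ y : Fin k → ℝ × ℝ, y ∈ {y : Fin k → ℝ × ℝ | ∀ n : ℤ, Phi θ c i y ≠ n} := by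
    rw [← ae_ae_add_linearMap_mem_iff (LinearMap.toSpanSingleton ℝ (Fin k → ℝ × ℝ) v) (volume : Measure ℝ) volume hms]
    filter_upwards [ae_cross hc hv] with y hy
    simp only [LinearMap.toSpanSingleton_apply]
    rw [ae_all_iff]
    intro n
    rw [ae_iff]
    simp only [not_not]
    exact line_null θ c i hy hP n
  filter_upwards [key] with y hy h
  obtain ⟨n, hn⟩ := e_eq_one h
  exact hy n hn

end Pool.Agent.W2helper83.LF
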