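import Pool.Agent.W2helper83.GZ.Fin

/-! Riemann sums over tuples of lattice points. -/

open Filter Topology MeasureTheory
open Pool.Agent.H383.AP
open Pool.Agent.H425R3.JL
open Pool.Agent.H469R2.NK
open Pool.Agent.W2helper83.GZ

namespace Pool.Agent.W2helper83.LF

variable {k : ℕ}

/-- the tuples of lattice points in the discs -/
noncomputable def discs (k N : ℕ) : Finset (Fin k → ℤ × ℤ) := Fintype.piFinset (fun _ => disc N)

lemma mem_discs {N : ℕ} {z : Fin k → ℤ × ℤ} : z ∈ discs k N ↔ ∀ i, z i ∈ disc N := Fintype.mem_piFinset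

lemma card_discs (N : ℕ) : (discs k N).card = (disc N).card ^ k := by
  unfold discs
  rw [Fintype.card_piFinset_const]

/-- the integer parts -/
noncomputable def flk (x : Fin k → ℝ × ℝ) : Fin k → ℤ × ℤ := fun i => fl (x i)

/-- sums over finitely many tuples as integrals -/
lemma sum_eq_int (S : Finset (Fin k → ℤ × ℤ)) (Φ : (Fin k → ℤ × ℤ) → ℂ) :
    ∫ x : Fin k → ℝ × ℝ, (if flk x ∈ S then Φ (flk x) else 0) = ∑ z ∈ S, Φ z := by
  classical
  set C : (Fin k → ℤ × ℤ) → Set (Fin k → ℝ × ℝ) := fun z =>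
    Set.pi Set.univ (fun i => Set.Ico ((z i).1:ℝ) ((z i).1 + 1) ×ˢ Set.Ico ((z i).2:ℝ) ((z i).2 + 1)) with hC
  have hCm : ∀ z, MeasurableSet (C z) := fun z =>
    MeasurableSet.univ_pi (fun i => measurableSet_Ico.prod measurableSet_Ico)
  have hCv : ∀ z, volume (C z) = 1 := by
    intro z
    simp only [hC]
    rw [volume_pi_pi]
    apply Finset.prod_eq_one
    intro i _
    rw [Measure.volume_eq_prod, Measure.prod_prod, Real.volume_Ico, Real.volume_Ico]
    simp
  have h1 : ∀ x : Fin k → ℝ × ℝ, (if flk x ∈ S then Φ (flk x) else 0) =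
      ∑ z ∈ S, (C z).indicator (fun _ => Φ z) x := by
    intro x
    have h2 : ∀ z : Fin k → ℤ × ℤ, x ∈ C z ↔ z = flk x := by
      intro z
      simp only [hC, Set.mem_univ_pi]
      constructor
      · intro h
        funext i
        have h3 := h i
        rw [Set.mem_prod, Set.mem_Ico, Set.mem_Ico, ← Int.floor_eq_iff, ← Int.floor_eq_iff] at h3
        unfold flk fl
        exact Prod.ext h3.1.symm h3.2.symm
      · rintro rfl i
        rw [Set.mem_prod, Set.mem_Ico, Set.mem_Ico, ← Int.floor_eq_iff, ← Int.floor_eq_iff]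
        exact ⟨rfl, rfl⟩
    have h3 : ∀ z ∈ S, (C z).indicator (fun _ => Φ z) x = if z = flk x then Φ z else 0 := by
      intro z _
      rw [Set.indicator_apply]
      simp only [h2]
    rw [Finset.sum_congr rfl h3, Finset.sum_ite_eq']
  simp only [h1]
  rw [integral_finsetSum]
  · apply Finset.sum_congr rfl
    intro z _
    rw [integral_indicator (hCm z), setIntegral_const, Measure.real, hCv]
    simp
  · intro z _
    rw [integrable_indicator_iff (hCm z)]
    apply const_on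
    rw [hCv]
    simp

lemma fl_mem {N : ℕ} (hN : 1 ≤ N) {y : ℝ × ℝ} (hy : fl (√(N:ℝ) • y) ∈ disc N) :
    y ∈ Set.Icc (-2:ℝ) 2 ×ˢ Set.Icc (-2:ℝ) 2 := by
  have hN1 : (1:ℝ) ≤ N := by exact_mod_cast hN
  have hs1 : 1 ≤ √(N:ℝ) := Real.one_le_sqrt.mpr hN1
  have hss : √(N:ℝ) * √(N:ℝ) = N := Real.mul_self_sqrt (by linarith)
  rw [mem_disc] at hy
  have h2 : ((fl (√(N:ℝ) • y)).1 : ℝ)^2 + ((fl (√(N:ℝ) • y)).2 : ℝ)^2 ≤ N := by
    rw [← nm_cast]; exact_mod_cast hy.2
  have key : ∀ t : ℝ, ((⌊√(N:ℝ) * t⌋ : ℤ) : ℝ)^2 ≤ N → t ∈ Set.Icc (-2:ℝ) 2 := by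
    intro t ht
    have h3 := Int.floor_le (√(N:ℝ) * t)
    have h4 := Int.lt_floor_add_one (√(N:ℝ) * t)
    have h5 : |((⌊√(N:ℝ) * t⌋ : ℤ) : ℝ)| ≤ √(N:ℝ) := Real.abs_le_sqrt ht
    rw [abs_le] at h5
    constructor
    · nlinarith
    · nlinarith
  refine Set.mem_prod.mpr ⟨key y.1 ?_, key y.2 ?_⟩
  · have e : (fl (√(N:ℝ) • y)).1 = ⌊√(N:ℝ) * y.1⌋ := rfl
    rw [← e]
    nlinarith [sq_nonneg ((fl (√(N:ℝ) • y)).2 : ℝ)]
  · have e : (fl (√(N:ℝ) • y)).2 = ⌊√(N:ℝ) * y.2⌋ := rfl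
    rw [← e]
    nlinarith [sq_nonneg ((fl (√(N:ℝ) • y)).1 : ℝ)]

/-- the big box -/
def box (k : ℕ) : Set (Fin k → ℝ × ℝ) := Set.pi Set.univ (fun _ => Set.Icc (-2:ℝ) 2 ×ˢ Set.Icc (-2:ℝ) 2)

lemma box_meas : MeasurableSet (box k) := MeasurableSet.univ_pi (fun _ => measurableSet_Icc.prod measurableSet_Icc)

lemma box_fin : volume (box k) ≠ ⊤ := by
  unfold box
  rw [volume_pi_pi]
  apply ENNReal.prod_ne_top
  intro i _
  rw [Measure.volume_eq_prod, Measure.prod_prod, Real.volume_Icc]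
  exact ENNReal.mul_ne_top ENNReal.ofReal_ne_top ENNReal.ofReal_ne_top

lemma box_int (B : ℝ) : Integrable (fun y : Fin k → ℝ × ℝ => (box k).indicator (fun _ => B) y) := by
  rw [integrable_indicator_iff box_meas]
  exact const_on box_fin B

/-- the limit of weighted counts -/
lemma riemann {Φ : ℕ → (Fin k → ℤ × ℤ) → ℂ} {B : ℝ} (hB : ∀ N z, ‖Φ N z‖ ≤ B) {Ψ : (Fin k → ℝ × ℝ) → ℂ}
    (h : ∀ᵐ y : Fin k → ℝ × ℝ, Tendsto (fun N : ℕ => if flk (√(N:ℝ) • y) ∈ discs k N then Φ N (flk (√(N:ℝ) • y)) else 0)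
      atTop (𝓝 (Ψ y))) :
    Tendsto (fun N : ℕ => (∑ z ∈ discs k N, Φ N z) / (N:ℂ) ^ k) atTop (𝓝 (∫ y, Ψ y)) := by
  classical
  have hB0 : 0 ≤ B := (norm_nonneg _).trans (hB 0 0)
  have h1 : Tendsto (fun N : ℕ => ∫ y : Fin k → ℝ × ℝ, (if flk (√(N:ℝ) • y) ∈ discs k N then Φ N (flk (√(N:ℝ) • y)) else 0)) atTop
      (𝓝 (∫ y, Ψ y)) := by
    apply tendsto_integral_filter_of_dominated_convergence (fun y => (box k).indicator (fun _ => B) y)
    · refine Eventually.of_forall (fun N => ?_)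
      have hm : Measurable (fun y : Fin k → ℝ × ℝ => flk (√(N:ℝ) • y)) := by
        unfold flk fl
        fun_prop
      have hd : Measurable (fun z : Fin k → ℤ × ℤ => if z ∈ discs k N then Φ N z else 0) := measurable_of_countable _
      exact (hd.comp hm).aestronglyMeasurable
    · rw [eventually_atTop]
      refine ⟨1, fun N hN => Eventually.of_forall (fun y => ?_)⟩
      rw [Set.indicator_apply]
      by_cases hy : flk (√(N:ℝ) • y) ∈ discs k N
      · rw [if_pos hy, if_pos]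
        · exact hB _ _
        · intro i _
          exact fl_mem hN (mem_discs.mp hy i)
      · rw [if_neg hy, norm_zero]
        split_ifs <;> linarith
    · exact box_int B
    · exact h
  refine h1.congr' ?_
  rw [EventuallyEq, eventually_atTop]
  refine ⟨1, fun N hN => ?_⟩
  have hN1 : (1:ℝ) ≤ N := by exact_mod_cast hN
  have := Measure.integral_comp_smul (μ := (volume : Measure (Fin k → ℝ × ℝ)))
    (fun x : Fin k → ℝ × ℝ => if flk x ∈ discs k N then Φ N (flk x) else 0) (√(N:ℝ))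
  rw [this, sum_eq_int]
  have hfr : Module.finrank ℝ (Fin k → ℝ × ℝ) = 2 * k := by
    rw [Module.finrank_pi_fintype]
    simp [mul_comm]
  have hp : √(N:ℝ) ^ (2 * k) = (N:ℝ) ^ k := by
    rw [pow_mul, Real.sq_sqrt (by linarith)]
  rw [hfr, hp, abs_of_pos (by positivity)]
  rw [Complex.real_smul]
  push_cast
  field_simp

end Pool.Agent.W2helper83.LF
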